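import Pool.Agent.StripChord.Vertex

/-! # The chord bound: accounting -/

namespace Pool.Agent.StripChord

open MeasureTheory Pool.Agent.StripNear

/-- Reflection in a vertical line. -/
def mir (p : Pt) : Pt := (-p.1, p.2)

theorem mir_inj : Function.Injective mir := by
  rintro ⟨a, b⟩ ⟨c, d⟩ h
  simp only [mir, Prod.mk.injEq, neg_inj] at h
  exact Prod.ext h.1 h.2

open Classical in
/-- The reflected set. -/
noncomputable def Mir (X : Finset Pt) : Finset Pt := X.image mir

variable {X : Finset Pt} {a L H B : ℝ}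

theorem mem_Mir {p : Pt} : mir p ∈ Mir X ↔ p ∈ X := by
  classical
  unfold Mir
  rw [Finset.mem_image]
  constructor
  · rintro ⟨q, hq, h⟩
    rwa [← mir_inj h]
  · exact fun h => ⟨p, h, rfl⟩

theorem sum_Mir (f : Pt → ℝ) : ∑ p ∈ Mir X, f p = ∑ p ∈ X, f (mir p) := by
  classical
  unfold Mir
  exact Finset.sum_image fun p _ q _ h => mir_inj h

theorem forall_Mir {P : Pt → Prop} : (∀ p ∈ Mir X, P p) ↔ ∀ p ∈ X, P (mir p) := by
  classical
  unfold Mir
  exact Finset.forall_mem_image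

theorem unitSep_Mir (hX : UnitSep X) : UnitSep (Mir X) := by
  unfold UnitSep
  rw [forall_Mir]
  intro p hp
  rw [forall_Mir]
  intro q hq hne
  have h := hX p hp q hq fun e => hne (by rw [e])
  have e : ((mir p).1 - (mir q).1) ^ 2 + ((mir p).2 - (mir q).2) ^ 2 =
      (p.1 - q.1) ^ 2 + (p.2 - q.2) ^ 2 := by
    unfold mir
    ring
  rw [e]
  exact h

theorem adj_Mir {p q : Pt} : Adj (Mir X) a (mir p) (mir q) ↔ Adj X a q p := by
  unfold Adj
  rw [mem_Mir, mem_Mir, forall_Mir]
  have e1 : ∀ r : Pt, (mir r).1 = -r.1 := fun _ => rfl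
  have e2 : ∀ r : Pt, (mir r).2 = r.2 := fun _ => rfl
  simp only [e1, e2]
  constructor
  · rintro ⟨h1, h2, h3, h4, h5, h6, h7⟩
    refine ⟨h2, h1, h4, h3, by linarith, by linarith, ?_⟩
    rintro r hr ha hb ⟨k1, k2⟩
    exact h7 r hr ha hb ⟨by linarith, by linarith⟩
  · rintro ⟨h1, h2, h3, h4, h5, h6, h7⟩
    refine ⟨h2, h1, h4, h3, by linarith, by linarith, ?_⟩
    rintro r hr ha hb ⟨k1, k2⟩
    exact h7 r hr ha hb ⟨by linarith, by linarith⟩

/-- The corrections cancel. -/
theorem sum_R (X : Finset Pt) (a : ℝ) : ∑ p ∈ X, R X p a + ∑ p ∈ Mir X, R (Mir X) p a = 0 := by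
  classical
  rw [sum_Mir]
  have h1 : ∀ p : Pt, R (Mir X) (mir p) a =
      ∑ q ∈ X, if Adj X a q p then kk (q.2 - p.2) (p.1 - q.1) else 0 := by
    intro p
    unfold R
    rw [sum_Mir]
    refine Finset.sum_congr rfl fun q _ => ?_
    rw [adj_Mir]
    have e : (mir q).1 - (mir p).1 = p.1 - q.1 := by
      unfold mir
      ring
    rw [e]
    rfl
  simp_rw [h1]
  rw [Finset.sum_comm (s := X) (t := X)
    (f := fun p q => if Adj X a q p then kk (q.2 - p.2) (p.1 - q.1) else 0)]
  unfold R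
  rw [← Finset.sum_add_distrib]
  refine Finset.sum_eq_zero fun p _ => ?_
  rw [← Finset.sum_add_distrib]
  refine Finset.sum_eq_zero fun q _ => ?_
  split_ifs
  · have e : p.2 - q.2 = -(q.2 - p.2) := by ring
    rw [e, kk_neg]
    ring
  · ring

open Classical in
/-- The value of `p`, cut off outside the slabs containing `p`. -/
noncomputable def vcut (X : Finset Pt) (p : Pt) (a : ℝ) : ℝ :=
  if a ≤ p.2 ∧ p.2 < a + h0 then V X p a else 0

theorem vcut_eq (X : Finset Pt) (p : Pt) :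
    vcut X p = Set.indicator (Set.Ioc (p.2 - h0) p.2) (fun a => V X p a) := by
  funext a
  unfold vcut
  by_cases h : a ≤ p.2 ∧ p.2 < a + h0
  · rw [if_pos h, Set.indicator_of_mem]
    exact ⟨by linarith [h.2], h.1⟩
  · rw [if_neg h, Set.indicator_of_notMem]
    intro h'
    exact h ⟨h'.2, by linarith [h'.1]⟩

theorem vcut_intervalIntegrable (X : Finset Pt) (p : Pt) (a b : ℝ) :
    IntervalIntegrable (vcut X p) volume a b := by
  have h := V_intervalIntegrable X p a b
  rw [vcut_eq]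
  exact ⟨h.1.indicator measurableSet_Ioc, h.2.indicator measurableSet_Ioc⟩

theorem sum_vcut (X : Finset Pt) (a : ℝ) :
    ∑ p ∈ X, vcut X p a = (∑ p ∈ X, gcut X p a) + ∑ p ∈ X, R X p a := by
  classical
  rw [← Finset.sum_add_distrib]
  refine Finset.sum_congr rfl fun p _ => ?_
  unfold vcut gcut
  by_cases h : a ≤ p.2 ∧ p.2 < a + h0
  · rw [if_pos h, if_pos h]
    rfl
  · rw [if_neg h, if_neg h, R_of_not fun q hq => h hq.2.2.1, add_zero]

/-- The sum of the distances to the next points of a slab. -/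
theorem slab_le (hX : UnitSep X) {γ γ' : ℝ} (h : ∀ p ∈ X, γ ≤ p.1 ∧ p.1 + 2 ≤ γ') (hγ : γ ≤ γ')
    (a : ℝ) : ∑ p ∈ X, gcut X p a ≤ γ' - γ := by
  classical
  have h1 := slab_sum hX a (X.filter fun p => a ≤ p.2 ∧ p.2 < a + h0) (Finset.filter_subset _ _)
    (fun p hp => (Finset.mem_filter.1 hp).2) (γ := γ) (γ' := γ') (α := γ) (β := γ)
    (fun p hp => by
      have h2 := h p (Finset.mem_filter.1 hp).1
      have h3 := xn_le_two X p a
      exact ⟨h2.1, by linarith [h2.2]⟩) le_rfl hγ hγ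
  have h2 := sum_gcut (X := X) X a
  have h3 := ulen_nonneg X a γ γ
  linarith

/-- The bound for a slab. -/
theorem slab_two (hX : UnitSep X) (hL0 : 0 ≤ L) (hL : ∀ p ∈ X, 0 ≤ p.1 ∧ p.1 ≤ L) (a : ℝ) :
    ∑ p ∈ X, vcut X p a + ∑ p ∈ Mir X, vcut (Mir X) p a ≤ 2 * (L + 2) := by
  have h1 := slab_le hX (γ := 0) (γ' := L + 2) (fun p hp => by
    have := hL p hp
    exact ⟨this.1, by linarith [this.2]⟩) (by linarith) a
  have h2 := slab_le (unitSep_Mir hX) (γ := -L) (γ' := 2) (by
    rw [forall_Mir]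
    intro p hp
    have := hL p hp
    unfold mir
    constructor
    · simp only
      linarith [this.2]
    · simp only
      linarith [this.1]) (by linarith) a
  have h3 := sum_R X a
  rw [sum_vcut, sum_vcut]
  linarith

/-- The integral of the value of one point. -/
theorem int_vcut (hX : UnitSep X) {p : Pt} (hp : p ∈ X) (hpH : p.2 ≤ H) (hB : B ≤ H) :
    min (max (p.2 - B) 0) h0 ≤ ∫ a in B..H, vcut X p a := by
  have hh := h0_pos
  rw [intervalIntegral.integral_of_le hB, vcut_eq, setIntegral_indicator measurableSet_Ioc,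
    Set.Ioc_inter_Ioc, inf_eq_right.2 hpH]
  rcases le_or_gt p.2 B with h | h
  · have h1 : p.2 ≤ B ⊔ (p.2 - h0) := h.trans le_sup_left
    rw [Set.Ioc_eq_empty (not_lt.2 h1), Measure.restrict_empty, integral_zero_measure,
      max_eq_right (by linarith), min_eq_left hh.le]
  · have h1 : B ⊔ (p.2 - h0) ≤ p.2 := sup_le h.le (by linarith)
    rw [← intervalIntegral.integral_of_le h1, max_eq_left (by linarith)]
    have h2 : B ⊔ (p.2 - h0) = p.2 - min (p.2 - B) h0 := by
      rcases le_total (p.2 - B) h0 with h3 | h3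
      · rw [min_eq_left h3, sup_eq_left.2 (by linarith)]
        ring
      · rw [min_eq_right h3, sup_eq_right.2 (by linarith)]
    rw [h2]
    exact vertex hX hp (le_min (by linarith) hh.le) (min_le_right _ _)

/-- The bound for the part above a cut. -/
theorem cut_bound (hX : UnitSep X) (hH : InStrip H X) (hL0 : 0 ≤ L)
    (hL : ∀ p ∈ X, 0 ≤ p.1 ∧ p.1 ≤ L) (hB : B ≤ H) :
    ∑ p ∈ X, min (max (p.2 - B) 0) h0 ≤ (H - B) * (L + 2) := by
  have hi : ∀ Y : Finset Pt, IntervalIntegrable (fun a => ∑ p ∈ Y, vcut Y p a) volume B H := by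
    intro Y
    have h := IntervalIntegrable.sum (μ := volume) (a := B) (b := H) Y
      (f := fun p => vcut Y p) (fun p _ => vcut_intervalIntegrable Y p B H)
    have e : (fun u => ∑ p ∈ Y, vcut Y p u) = ∑ p ∈ Y, vcut Y p := by
      funext u
      rw [Finset.sum_apply]
    rw [e]
    exact h
  have h1 : ∫ a in B..H, (∑ p ∈ X, vcut X p a + ∑ p ∈ Mir X, vcut (Mir X) p a) ≤
      (H - B) * (2 * (L + 2)) := by
    have := intervalIntegral.integral_mono_on (μ := volume) (a := B) (b := H)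
      (f := fun a => ∑ p ∈ X, vcut X p a + ∑ p ∈ Mir X, vcut (Mir X) p a)
      (g := fun _ => 2 * (L + 2)) hB ((hi X).add (hi (Mir X))) intervalIntegrable_const
      (fun a _ => slab_two hX hL0 hL a)
    rwa [intervalIntegral.integral_const, smul_eq_mul] at this
  rw [intervalIntegral.integral_add (hi X) (hi (Mir X)),
    intervalIntegral.integral_finsetSum (fun p _ => vcut_intervalIntegrable X p B H),
    intervalIntegral.integral_finsetSum (fun p _ => vcut_intervalIntegrable (Mir X) p B H)] at h1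
  have h2 : ∑ p ∈ X, min (max (p.2 - B) 0) h0 ≤ ∑ p ∈ X, ∫ a in B..H, vcut X p a :=
    Finset.sum_le_sum fun p hp => int_vcut hX hp (hH p hp).2 hB
  have h3 : ∑ p ∈ X, min (max (p.2 - B) 0) h0 ≤
      ∑ p ∈ Mir X, ∫ a in B..H, vcut (Mir X) p a := by
    rw [sum_Mir]
    exact Finset.sum_le_sum fun p hp =>
      int_vcut (unitSep_Mir hX) (mem_Mir.2 hp) (p := mir p) (hH p hp).2 hB
  linarith

theorem sum_clamp {h w : ℝ} (hh : 0 < h) (hw : 0 ≤ w) (m : ℕ) :
    ∑ j ∈ Finset.range m, min (max (((j : ℝ) + 1) * h - w) 0) h = max ((m : ℝ) * h - w) 0 := by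
  induction m with
  | zero =>
    rw [Finset.sum_range_zero, max_eq_right]
    simp only [Nat.cast_zero, zero_mul]
    linarith
  | succ m ih =>
    rw [Finset.sum_range_succ, ih]
    push_cast
    rcases le_total w (m * h) with h1 | h1
    · rw [max_eq_left (by linarith), max_eq_left (by linarith : (0 : ℝ) ≤ ((m : ℝ) + 1) * h - w),
        min_eq_right (by linarith)]
      ring
    · rw [max_eq_right (by linarith : (m : ℝ) * h - w ≤ 0), zero_add, min_eq_left]
      exact max_le (by linarith) hh.le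

/-- The sum of the bounds for the cuts at distances `h0, 2 h0, ..., (n + 1) h0` from the top. -/
theorem half_bound {n : ℕ} (hX : UnitSep X) (hH : InStrip H X) (hHn : H ≤ ((n : ℝ) + 1) * h0)
    (hL0 : 0 ≤ L) (hL : ∀ p ∈ X, 0 ≤ p.1 ∧ p.1 ≤ L) :
    ∑ p ∈ X, (((n : ℝ) + 1) * h0 - (H - p.2)) ≤
      h0 * (L + 2) * (((n : ℝ) + 1) * (n + 2) / 2) := by
  have hh := h0_pos
  have h1 : ∀ j ∈ Finset.range (n + 1),
      ∑ p ∈ X, min (max (((j : ℝ) + 1) * h0 - (H - p.2)) 0) h0 ≤
        ((j : ℝ) + 1) * (h0 * (L + 2)) := by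
    intro j _
    have hj : (0 : ℝ) ≤ j := Nat.cast_nonneg j
    have h2 := cut_bound hX hH hL0 hL (B := H - ((j : ℝ) + 1) * h0) (by
      have : 0 ≤ ((j : ℝ) + 1) * h0 := by positivity
      linarith)
    have e : ∀ p : Pt, p.2 - (H - ((j : ℝ) + 1) * h0) = ((j : ℝ) + 1) * h0 - (H - p.2) := by
      intro p
      ring
    simp only [e] at h2
    calc _ ≤ _ := h2
      _ = _ := by ring
  have h2 := Finset.sum_le_sum h1
  rw [Finset.sum_comm, ← Finset.sum_mul] at h2
  have h3 : ∑ j ∈ Finset.range (n + 1), ((j : ℝ) + 1) = ((n : ℝ) + 1) * (n + 2) / 2 := by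
    clear h1 h2 hHn
    induction n with
    | zero => norm_num
    | succ n ih =>
      rw [Finset.sum_range_succ, ih]
      push_cast
      ring
  have h4 : ∀ p ∈ X, ∑ j ∈ Finset.range (n + 1), min (max (((j : ℝ) + 1) * h0 - (H - p.2)) 0) h0 =
      ((n : ℝ) + 1) * h0 - (H - p.2) := by
    intro p hp
    have h5 := hH p hp
    rw [sum_clamp hh (by linarith [h5.2]) (n + 1)]
    push_cast
    exact max_eq_left (by linarith [h5.1])
  rw [Finset.sum_congr rfl h4, h3] at h2
  linarith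

/-- Reflection in a horizontal line. -/
def vmir (H : ℝ) (p : Pt) : Pt := (p.1, H - p.2)

theorem vmir_inj (H : ℝ) : Function.Injective (vmir H) := by
  rintro ⟨a, b⟩ ⟨c, d⟩ h
  simp only [vmir, Prod.mk.injEq] at h
  exact Prod.ext h.1 (by linarith [h.2])

/-- The chord bound for the number of points. -/
theorem count {n : ℕ} {x : ℝ} (hx : x ≤ 1) (hX : UnitSep X)
    (hH : InStrip (((n : ℝ) + x) * h0) X) (hL0 : 0 ≤ L) (hL : ∀ p ∈ X, 0 ≤ p.1 ∧ p.1 ≤ L) :
    (X.card : ℝ) ≤ ((n : ℝ) + 1) * (n + 2) / (n + 2 - x) * (L + 2) := by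
  classical
  have hh := h0_pos
  have hn : (0 : ℝ) ≤ n := Nat.cast_nonneg n
  set H := ((n : ℝ) + x) * h0 with hHdef
  have hHn : H ≤ ((n : ℝ) + 1) * h0 := by
    rw [hHdef]
    nlinarith
  have h1 := half_bound (n := n) hX hH hHn hL0 hL
  have hX' : UnitSep (X.image (vmir H)) := by
    unfold UnitSep
    rw [Finset.forall_mem_image]
    intro p hp
    rw [Finset.forall_mem_image]
    intro q hq hne
    have h := hX p hp q hq fun e => hne (by rw [e])
    have e : ((vmir H p).1 - (vmir H q).1) ^ 2 + ((vmir H p).2 - (vmir H q).2) ^ 2 =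
        (p.1 - q.1) ^ 2 + (p.2 - q.2) ^ 2 := by
      unfold vmir
      ring
    rw [e]
    exact h
  have h2 := half_bound (n := n) (X := X.image (vmir H)) (H := H) (L := L) hX' (by
    unfold InStrip
    rw [Finset.forall_mem_image]
    intro p hp
    have := hH p hp
    unfold vmir
    constructor
    · simp only
      linarith [this.2]
    · simp only
      linarith [this.1]) hHn hL0 (by
    rw [Finset.forall_mem_image]
    intro p hp
    exact hL p hp)
  rw [Finset.sum_image fun p _ q _ h => vmir_inj H h] at h2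
  have h3 : ∑ p ∈ X, (((n : ℝ) + 1) * h0 - (H - p.2)) +
      ∑ p ∈ X, (((n : ℝ) + 1) * h0 - (H - (vmir H p).2)) =
      (X.card : ℝ) * (2 * ((n : ℝ) + 1) * h0 - H) := by
    rw [← Finset.sum_add_distrib, ← nsmul_eq_mul, ← Finset.sum_const]
    refine Finset.sum_congr rfl fun p _ => ?_
    unfold vmir
    ring
  have h4 : (X.card : ℝ) * (2 * ((n : ℝ) + 1) * h0 - H) ≤
      h0 * (L + 2) * (((n : ℝ) + 1) * (n + 2)) := by linarith
  have h5 : 2 * ((n : ℝ) + 1) * h0 - H = h0 * (n + 2 - x) := by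
    rw [hHdef]
    ring
  rw [h5] at h4
  have h6 : h0 * ((X.card : ℝ) * (n + 2 - x)) ≤
      h0 * (((n : ℝ) + 1) * (n + 2) * (L + 2)) := by linarith
  have h7 := le_of_mul_le_mul_left h6 hh
  have h8 : (0 : ℝ) < n + 2 - x := by linarith
  rw [div_mul_eq_mul_div, le_div_iff₀ h8]
  exact h7

end Pool.Agent.StripChord
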