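import Pool.Agent.StripNear.Density
import Pool.Agent.StripChord.Account

/-! # The chord bound for packings of unit discs in a strip -/

namespace Pool.Agent.StripChord

open Pool.Agent.StripNear

/-- The largest integer `n ≥ 0` with `n √3 ≤ w - 2` (for `w ≥ 2`). -/
noncomputable def rowNo (w : ℝ) : ℕ := ⌊(w - 2) / Real.sqrt 3⌋₊

/-- Molnar's expression with the arc `√(4 - t²)` replaced by its chord `2 - t / √3` over
`0 ≤ t ≤ √3`, where `t = w - 2 - √3 n`. -/
noncomputable def chordDensity (w : ℝ) : ℝ :=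
  Real.pi * (rowNo w + 1) * (rowNo w + 2) /
    (2 * w * (rowNo w + (2 - (w - 2 - Real.sqrt 3 * rowNo w) / Real.sqrt 3)))

/-- The chord bound. -/
theorem chord_bound {w : ℝ} (hw : 2 ≤ w) {C : Set E2} (hC : IsStripPacking w C) {O : E2} {d : ℝ}
    (hd : HasDensity w C O d) : d ≤ chordDensity w := by
  have hr := r3_sq
  have hr0 := r3_pos
  set n := rowNo w with hn
  have hn0 : (0 : ℝ) ≤ n := Nat.cast_nonneg n
  set x : ℝ := (w - 2) / √3 - n with hx
  have hq : 0 ≤ (w - 2) / √3 := div_nonneg (by linarith) hr0.le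
  have hx0 : 0 ≤ x := by
    have : (n : ℝ) ≤ (w - 2) / √3 := Nat.floor_le hq
    linarith
  have hx1 : x ≤ 1 := by
    have : (w - 2) / √3 < (n : ℝ) + 1 := Nat.lt_floor_add_one _
    linarith
  have hH : (w - 2) / 2 = ((n : ℝ) + x) * h0 := by
    rw [hx, h0_eq]
    field_simp
    ring
  have h1 := density_le (w := w) (m := ((n : ℝ) + 1) * (n + 2) / (n + 2 - x))
    (C0 := ((n : ℝ) + 1) * (n + 2) / (n + 2 - x) * 2) hw
    (fun L hL0 X hX hL hXH => by
      rw [hH] at hXH
      have := count hx1 hX hXH hL0 hL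
      linarith) hC hd
  refine h1.trans (le_of_eq ?_)
  unfold chordDensity
  rw [← hn]
  have e : (n : ℝ) + (2 - (w - 2 - √3 * n) / √3) = n + 2 - x := by
    rw [hx]
    field_simp
    ring
  rw [e]
  have h2 : (0 : ℝ) < n + 2 - x := by linarith
  field_simp

end Pool.Agent.StripChord
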