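import Pool.Agent.StripNear.Basic

/-! # The chord bound: real inequalities

Inequalities between the sides of the two unit edges at a vertex, in terms of the angles of the
edges.  All of them become products of nonnegative terms in suitable angles. -/

namespace Pool.Agent.StripChord

open Real

/-- The left side minus the right side of the main inequality. -/
noncomputable def II (r s v x X Z : ℝ) : ℝ :=
  (r / 2 - s) * ((x + 1 + s * r / 3) / 2) + (s + v - r / 2) * Z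
    + (r / 2 - v) * ((3 * X - 1 - v * r / 3) / 2) - r / 2

private theorem id_S2 {su cu sd cd r : ℝ} (h1 : cu ^ 2 = 1 - su ^ 2) (h2 : cd ^ 2 = 1 - sd ^ 2)
    (h3 : r ^ 2 = 3) :
    II r ((cu * cd - su * sd) - ((cu * cd + su * sd) / 2 + (su * cd - cu * sd) * r / 2))
      ((cu * cd + su * sd) / 2 + (su * cd - cu * sd) * r / 2)
      ((cu * cd + su * sd) * r / 2 - (su * cd - cu * sd) / 2 + (su * cd + cu * sd))
      ((cu * cd + su * sd) * r / 2 - (su * cd - cu * sd) / 2)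
      ((cu * cd + su * sd) * r / 2 - (su * cd - cu * sd) / 2
        + ((su * cd + cu * sd) / 2 + r / 2 * (cu * cd - su * sd))) =
    2 * sd * (su * (1 - (r / 2 * (cu * cd - su * sd) + (su * cd + cu * sd) / 2)
        * ((1 - 2 * su ^ 2) / 2 + r / 2 * (2 * su * cu)))
      + ((cu * cd - su * sd) / 2 - r / 2 * (su * cd + cu * sd))
        * (r / 3 * ((r / 2 * cu + su / 2) - 2 * su * cu * (cu / 2 - r / 2 * su))
          - r / 6 * (3 * su - 4 * su ^ 3))) := by
  unfold II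
  linear_combination ((1/3)*su^2*sd^2*r^3 + (2/3)*su^2*sd^2*r + (1/3)*su^2*sd*cd*r^2 + (-1/3)*su*cu*sd^2*r^2 + (1/3)*su*cu*sd*cd*r + (1/6)*sd^2*r^3 + (-1/12)*sd*cd*r^2 + (1/4)*sd*cd + (1/2)*cd^2*r) * h1 + ((-1/12)*su*cu*r^2 + (1/4)*su*cu + (1/2)*r) * h2 + ((-1/3)*su^4*sd^2*r + (1/3)*su^4*sd*cd + (1/3)*su^3*cu*sd^2 + (1/3)*su^3*cu*sd*cd*r + (1/6)*su^2*sd^2*r + (-1/3)*su^2*sd*cd + (1/6)*su*cu*sd*cd*r + (-1/12)*su*cu + (1/3)*su*sd + (-1/12)*su*cd*r + (1/12)*cu*sd*r + (1/6)*sd^2*r + (-1/12)*sd*cd) * h3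

private theorem id_S1 {su cu sd cd r : ℝ} (h1 : cu ^ 2 = 1 - su ^ 2) (h2 : cd ^ 2 = 1 - sd ^ 2)
    (h3 : r ^ 2 = 3) :
    II r ((cu * cd + su * sd) / 2 + (su * cd - cu * sd) * r / 2)
      ((cu * cd - su * sd) - ((cu * cd + su * sd) / 2 + (su * cd - cu * sd) * r / 2))
      ((cu * cd + su * sd) * r / 2 - (su * cd - cu * sd) / 2)
      ((cu * cd + su * sd) * r / 2 - (su * cd - cu * sd) / 2 + (su * cd + cu * sd))
      ((cu * cd + su * sd) * r / 2 - (su * cd - cu * sd) / 2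
        + ((su * cd + cu * sd) / 2 + r / 2 * (cu * cd - su * sd))) =
    2 * sd * ((r / 2 * cu + su / 2) * (1 - (r / 2 * (cu * cd - su * sd) + (su * cd + cu * sd) / 2))
      + 2 * (r / 2 * (cu * cd - su * sd) + (su * cd + cu * sd) / 2) * su
        * (r / 2 * cu + su / 2) ^ 2
      + ((cu * cd - su * sd) / 2 - r / 2 * (su * cd + cu * sd))
        * (2 * r / 3 * (r / 2 * cu - su / 2) - (cu / 2 + r / 2 * su) / 2
          + ((4 * cu ^ 3 - 3 * cu) / 2 + r / 2 * (3 * su - 4 * su ^ 3)) / 2)) := by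
  unfold II
  linear_combination ((1/2)*su^2*sd^2*r^3 + (-2)*su^2*sd^2*r + (-3/2)*su^2*sd*cd*r^2 + 1*su^2*sd*cd + (-1/2)*su*cu*sd^2*r^2 + 1*su*cu*sd^2 + (-1/2)*su*cu*sd*cd*r^3 + 1*su*cu*sd*cd*r + 1*cu^2*sd^2*r + (-1)*cu^2*sd*cd + (1/3)*sd^2*r^3 + (-1/2)*sd^2*r + (1/12)*sd*cd*r^2 + (-1/4)*sd*cd + (1/2)*cd^2*r) * h1 + ((1/12)*su*cu*r^2 + (-1/4)*su*cu + (1/2)*r) * h2 + ((-1/2)*su^4*sd^2*r + (1/2)*su^4*sd*cd + (1/2)*su^3*cu*sd^2 + (1/2)*su^3*cu*sd*cd*r + (1/6)*su^2*sd^2*r + (-1)*su^2*sd*cd + (-1)*su*cu*sd^2 + (-1/6)*su*cu*sd*cd*r + (1/12)*su*cu + (2/3)*su*sd + (1/12)*su*cd*r + (-1/12)*cu*sd*r + (1/3)*sd^2*r + (1/12)*sd*cd) * h3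

private theorem id_Big {su cu sd cd r : ℝ} (h1 : cu ^ 2 = 1 - su ^ 2) (h2 : cd ^ 2 = 1 - sd ^ 2)
    (h3 : r ^ 2 = 3) :
    II r ((su * cd + cu * sd) * r / 2 + (cu * cd - su * sd) / 2)
      ((su * cd - cu * sd) * r / 2 + (cu * cd + su * sd) / 2)
      ((cu * cd - su * sd) * r / 2 - (su * cd + cu * sd) / 2)
      ((cu * cd + su * sd) * r / 2 - (su * cd - cu * sd) / 2)
      ((cu * cd - su * sd) * r / 2 - (su * cd + cu * sd) / 2
        + ((cu * cd + su * sd) * r / 2 - (su * cd - cu * sd) / 2)) =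
    2 * su * ((cu / 2 - r / 2 * su) - r / 3 * sd * (2 * cu * cd - r / 2)) := by
  unfold II
  linear_combination ((1/2)*sd^2*r + (1/12)*sd*cd*r^2 + (-1/4)*sd*cd + (1/2)*cd^2*r) * h1 + ((-1)*su^2*r + (1/2)*su*cu*r^2 + (-1/2)*su*cu + (1/2)*r) * h2 + ((-1/6)*su^2*sd*cd + (-1/6)*su*cu*sd*cd*r + (1/2)*su*cu + (-1/6)*su*sd + (1/12)*cu*sd*r + (1/12)*sd*cd) * h3

private theorem id_D1 {sd cd r : ℝ} (h2 : cd ^ 2 = 1 - sd ^ 2) (h3 : r ^ 2 = 3) :
    2 * sd * cd * ((1 - 2 * sd ^ 2) + 1 / 2)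
      + (r / 2 - 2 * sd * cd) * ((3 * (1 - 2 * sd ^ 2) - 1 - 2 * sd * cd * r / 3) / 2) - r / 2 =
    2 * sd * (cd - r * sd) * (cd ^ 2 / 4 - r * sd * cd / 6 + 3 / 4 * sd ^ 2) := by
  linear_combination ((3/2)*sd^2*r + (-1/2)*sd*cd) * h2 + ((-1/3)*sd^3*cd + (-1/6)*sd*cd) * h3

private theorem r_sq : √3 ^ 2 = (3 : ℝ) := Real.sq_sqrt (by norm_num)

private theorem r_pos : 0 < √(3 : ℝ) := Real.sqrt_pos.2 (by norm_num)

private theorem r_gt : (1.732 : ℝ) < √3 := by
  have := r_sq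
  have := r_pos
  nlinarith

private theorem r_lt : √3 < (1.733 : ℝ) := by
  have := r_sq
  have := r_pos
  nlinarith

private theorem cs_sq (u : ℝ) : cos u ^ 2 = 1 - sin u ^ 2 := by
  have := sin_sq_add_cos_sq u
  linarith

private theorem sin_six_add (x : ℝ) : sin (π / 6 + x) = cos x / 2 + √3 / 2 * sin x := by
  rw [sin_add, sin_pi_div_six, cos_pi_div_six]
  ring

private theorem cos_six_add (x : ℝ) : cos (π / 6 + x) = √3 / 2 * cos x - sin x / 2 := by
  rw [cos_add, sin_pi_div_six, cos_pi_div_six]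
  ring

private theorem sin_six_sub (x : ℝ) : sin (π / 6 - x) = cos x / 2 - √3 / 2 * sin x := by
  rw [sin_sub, sin_pi_div_six, cos_pi_div_six]
  ring

private theorem cos_six_sub (x : ℝ) : cos (π / 6 - x) = √3 / 2 * cos x + sin x / 2 := by
  rw [cos_sub, sin_pi_div_six, cos_pi_div_six]
  ring

private theorem cos_three_add (x : ℝ) : cos (π / 3 + x) = cos x / 2 - √3 / 2 * sin x := by
  rw [cos_add, sin_pi_div_three, cos_pi_div_three]
  ring

private theorem cos_three_sub (x : ℝ) : cos (π / 3 - x) = cos x / 2 + √3 / 2 * sin x := by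
  rw [cos_sub, sin_pi_div_three, cos_pi_div_three]
  ring

private theorem sin_three_add (x : ℝ) : sin (π / 3 + x) = √3 / 2 * cos x + sin x / 2 := by
  rw [sin_add, sin_pi_div_three, cos_pi_div_three]
  ring

/-- The case of a far upper neighbour and small angles. -/
private theorem ineq_S2 {u d : ℝ} (hu : 0 ≤ u) (hd : 0 ≤ d) (hud : u + d ≤ π / 6) :
    0 ≤ II (√3) (cos (u + d) - sin (π / 6 + (u - d))) (sin (π / 6 + (u - d)))
      (cos (π / 6 + (u - d)) + sin (u + d)) (cos (π / 6 + (u - d)))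
      (cos (π / 6 + (u - d)) + (sin (u + d) / 2 + √3 / 2 * cos (u + d))) := by
  have hpi := pi_pos
  have hr := r_sq
  have hr0 := r_pos
  have hr1 := r_gt
  have hr2 := r_lt
  have e1 : sin (π / 6 + (u - d)) = (cos u * cos d + sin u * sin d) / 2
      + (sin u * cos d - cos u * sin d) * √3 / 2 := by
    rw [sin_six_add, cos_sub, sin_sub]
    ring
  have e2 : cos (π / 6 + (u - d)) = (cos u * cos d + sin u * sin d) * √3 / 2
      - (sin u * cos d - cos u * sin d) / 2 := by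
    rw [cos_six_add, cos_sub, sin_sub]
    ring
  rw [e1, e2, cos_add, sin_add, id_S2 (cs_sq u) (cs_sq d) hr]
  have f1 : √3 / 2 * (cos u * cos d - sin u * sin d) + (sin u * cos d + cos u * sin d) / 2 =
      cos (π / 6 - (u + d)) := by
    rw [cos_six_sub, cos_add, sin_add]
  have f2 : (cos u * cos d - sin u * sin d) / 2 - √3 / 2 * (sin u * cos d + cos u * sin d) =
      sin (π / 6 - (u + d)) := by
    rw [sin_six_sub, cos_add, sin_add]
  have f3 : (1 - 2 * sin u ^ 2) / 2 + √3 / 2 * (2 * sin u * cos u) = cos (π / 3 - 2 * u) := by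
    rw [cos_three_sub, cos_two_mul, sin_two_mul, cs_sq]
    ring
  have f4 : √3 / 2 * cos u + sin u / 2 = cos (π / 6 - u) := (cos_six_sub u).symm
  have f5 : cos u / 2 - √3 / 2 * sin u = sin (π / 6 - u) := (sin_six_sub u).symm
  have f6 : 3 * sin u - 4 * sin u ^ 3 = sin (3 * u) := (sin_three_mul u).symm
  rw [f1, f2, f3, f4, f5, f6]
  have g1 : 0 ≤ sin u := sin_nonneg_of_nonneg_of_le_pi hu (by linarith)
  have g2 : 0 ≤ sin d := sin_nonneg_of_nonneg_of_le_pi hd (by linarith)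
  have g3 : 0 ≤ sin (π / 6 - (u + d)) := sin_nonneg_of_nonneg_of_le_pi (by linarith) (by linarith)
  have g4 : cos (π / 6 - (u + d)) * cos (π / 3 - 2 * u) ≤ 1 := by
    have a1 := cos_le_one (π / 6 - (u + d))
    have a2 := neg_one_le_cos (π / 6 - (u + d))
    have a3 := cos_le_one (π / 3 - 2 * u)
    have a4 := neg_one_le_cos (π / 3 - 2 * u)
    nlinarith
  have g5 : √3 / 2 ≤ cos (π / 6 - u) := by
    rw [← cos_pi_div_six]
    exact cos_le_cos_of_nonneg_of_le_pi (by linarith) (by linarith) (by linarith)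
  have g6 : 0 ≤ sin (π / 6 - u) := sin_nonneg_of_nonneg_of_le_pi (by linarith) (by linarith)
  have g7 : 2 * sin u * cos u * sin (π / 6 - u) ≤ 1 - √3 / 2 := by
    have a1 := cos_le_one u
    have a2 : 2 * sin u * sin (π / 6 - u) = cos (u - (π / 6 - u)) - cos (π / 6) := by
      have : cos (π / 6) = cos (u + (π / 6 - u)) := by ring_nf
      rw [this, cos_add, cos_sub]
      ring
    have a3 := cos_le_one (u - (π / 6 - u))
    rw [cos_pi_div_six] at a2
    have a4 : 0 ≤ 2 * sin u * sin (π / 6 - u) := by positivity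
    calc 2 * sin u * cos u * sin (π / 6 - u) = (2 * sin u * sin (π / 6 - u)) * cos u := by ring
      _ ≤ (2 * sin u * sin (π / 6 - u)) * 1 := mul_le_mul_of_nonneg_left a1 a4
      _ ≤ _ := by linarith
  have g8 := sin_le_one (3 * u)
  have g9 : 0 ≤ √3 / 3 * (cos (π / 6 - u) - 2 * sin u * cos u * sin (π / 6 - u))
      - √3 / 6 * sin (3 * u) := by
    have a1 : √3 / 3 * (√3 / 2 - (1 - √3 / 2)) ≤
        √3 / 3 * (cos (π / 6 - u) - 2 * sin u * cos u * sin (π / 6 - u)) :=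
      mul_le_mul_of_nonneg_left (by linarith) (by positivity)
    have a2 : √3 / 6 * sin (3 * u) ≤ √3 / 6 * 1 := mul_le_mul_of_nonneg_left g8 (by positivity)
    nlinarith
  have g10 : 0 ≤ sin u * (1 - cos (π / 6 - (u + d)) * cos (π / 3 - 2 * u)) :=
    mul_nonneg g1 (by linarith)
  have g11 := mul_nonneg g3 g9
  exact mul_nonneg (by linarith) (by linarith)

/-- The case of a far lower neighbour and small angles. -/
private theorem ineq_S1 {u d : ℝ} (hu : 0 ≤ u) (hd : 0 ≤ d) (hud : u + d ≤ π / 6) :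
    0 ≤ II (√3) (sin (π / 6 + (u - d))) (cos (u + d) - sin (π / 6 + (u - d)))
      (cos (π / 6 + (u - d))) (cos (π / 6 + (u - d)) + sin (u + d))
      (cos (π / 6 + (u - d)) + (sin (u + d) / 2 + √3 / 2 * cos (u + d))) := by
  have hpi := pi_pos
  have hr := r_sq
  have hr0 := r_pos
  have hr1 := r_gt
  have e1 : sin (π / 6 + (u - d)) = (cos u * cos d + sin u * sin d) / 2
      + (sin u * cos d - cos u * sin d) * √3 / 2 := by
    rw [sin_six_add, cos_sub, sin_sub]
    ring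
  have e2 : cos (π / 6 + (u - d)) = (cos u * cos d + sin u * sin d) * √3 / 2
      - (sin u * cos d - cos u * sin d) / 2 := by
    rw [cos_six_add, cos_sub, sin_sub]
    ring
  rw [e1, e2, cos_add, sin_add, id_S1 (cs_sq u) (cs_sq d) hr]
  have f1 : √3 / 2 * (cos u * cos d - sin u * sin d) + (sin u * cos d + cos u * sin d) / 2 =
      cos (π / 6 - (u + d)) := by
    rw [cos_six_sub, cos_add, sin_add]
  have f2 : (cos u * cos d - sin u * sin d) / 2 - √3 / 2 * (sin u * cos d + cos u * sin d) =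
      sin (π / 6 - (u + d)) := by
    rw [sin_six_sub, cos_add, sin_add]
  have f4 : √3 / 2 * cos u + sin u / 2 = cos (π / 6 - u) := (cos_six_sub u).symm
  have f5 : √3 / 2 * cos u - sin u / 2 = cos (π / 6 + u) := (cos_six_add u).symm
  have f6 : cos u / 2 + √3 / 2 * sin u = sin (π / 6 + u) := (sin_six_add u).symm
  have f7 : (4 * cos u ^ 3 - 3 * cos u) / 2 + √3 / 2 * (3 * sin u - 4 * sin u ^ 3) =
      cos (π / 3 - 3 * u) := by
    rw [cos_three_sub, cos_three_mul, sin_three_mul]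
  rw [f1, f2, f4, f5, f6, f7]
  have g1 : 0 ≤ sin u := sin_nonneg_of_nonneg_of_le_pi hu (by linarith)
  have g2 : 0 ≤ sin d := sin_nonneg_of_nonneg_of_le_pi hd (by linarith)
  have g3 : 0 ≤ sin (π / 6 - (u + d)) := sin_nonneg_of_nonneg_of_le_pi (by linarith) (by linarith)
  have g4 : 0 ≤ cos (π / 6 - (u + d)) := cos_nonneg_of_mem_Icc ⟨by linarith, by linarith⟩
  have g5 := cos_le_one (π / 6 - (u + d))
  have g6 : 0 ≤ cos (π / 6 - u) := cos_nonneg_of_mem_Icc ⟨by linarith, by linarith⟩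
  have g7 : 1 / 2 ≤ cos (π / 6 + u) := by
    rw [← cos_pi_div_three]
    exact cos_le_cos_of_nonneg_of_le_pi (by linarith) (by linarith) (by linarith)
  have g8 := sin_le_one (π / 6 + u)
  have g9 : 0 ≤ cos (π / 3 - 3 * u) := cos_nonneg_of_mem_Icc ⟨by linarith, by linarith⟩
  have g10 : 0 ≤ 2 * √3 / 3 * cos (π / 6 + u) - sin (π / 6 + u) / 2 + cos (π / 3 - 3 * u) / 2 := by
    nlinarith
  have g11 : 0 ≤ cos (π / 6 - u) * (1 - cos (π / 6 - (u + d))) := mul_nonneg g6 (by linarith)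
  have g12 : 0 ≤ 2 * cos (π / 6 - (u + d)) * sin u * cos (π / 6 - u) ^ 2 := by positivity
  have g13 := mul_nonneg g3 g10
  exact mul_nonneg (by linarith) (by linarith)

/-- The case of large angles. -/
private theorem ineq_Big {P q : ℝ} (hP : 0 ≤ P) (hP1 : P ≤ π / 6) (hq : P + q ≤ π / 6)
    (hq' : P - q ≤ π / 6) :
    0 ≤ II (√3) (sin (π / 6 + (P + q))) (sin (π / 6 + (P - q)))
      (cos (π / 6 + (P + q))) (cos (π / 6 + (P - q)))
      (cos (π / 6 + (P + q)) + cos (π / 6 + (P - q))) := by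
  have hpi := pi_pos
  have hr := r_sq
  have hr0 := r_pos
  have hr1 := r_gt
  have hr2 := r_lt
  have e1 : sin (π / 6 + (P - q)) = (sin P * cos q - cos P * sin q) * √3 / 2
      + (cos P * cos q + sin P * sin q) / 2 := by
    rw [sin_six_add, cos_sub, sin_sub]
    ring
  have e2 : cos (π / 6 + (P - q)) = (cos P * cos q + sin P * sin q) * √3 / 2
      - (sin P * cos q - cos P * sin q) / 2 := by
    rw [cos_six_add, cos_sub, sin_sub]
    ring
  have e3 : sin (π / 6 + (P + q)) = (sin P * cos q + cos P * sin q) * √3 / 2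
      + (cos P * cos q - sin P * sin q) / 2 := by
    rw [sin_six_add, cos_add, sin_add]
    ring
  have e4 : cos (π / 6 + (P + q)) = (cos P * cos q - sin P * sin q) * √3 / 2
      - (sin P * cos q + cos P * sin q) / 2 := by
    rw [cos_six_add, cos_add, sin_add]
    ring
  rw [e1, e2, e3, e4, id_Big (cs_sq P) (cs_sq q) hr]
  have f1 : cos P / 2 - √3 / 2 * sin P = sin (π / 6 - P) := (sin_six_sub P).symm
  rw [f1]
  have g1 : 0 ≤ sin P := sin_nonneg_of_nonneg_of_le_pi hP (by linarith)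
  have g2 : 0 ≤ sin (π / 6 - P) := sin_nonneg_of_nonneg_of_le_pi (by linarith) (by linarith)
  have g3 : √3 / 2 ≤ cos P := by
    rw [← cos_pi_div_six]
    exact cos_le_cos_of_nonneg_of_le_pi (by linarith) (by linarith) (by linarith)
  have g4 : √3 / 2 ≤ cos q := by
    rw [← cos_pi_div_six, ← cos_abs q]
    refine cos_le_cos_of_nonneg_of_le_pi (abs_nonneg _) (by linarith) ?_
    rw [abs_le]
    constructor <;> linarith
  have g5 := cos_le_one P
  have g6 := cos_le_one q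
  have g7 : 0 ≤ 2 * cos P * cos q - √3 / 2 := by nlinarith
  have g8 : 2 * cos P * cos q - √3 / 2 ≤ 2 - √3 / 2 := by
    have : cos P * cos q ≤ 1 := by nlinarith
    linarith
  have g9 : sin q ≤ sin (π / 6 - P) :=
    sin_le_sin_of_le_of_le_pi_div_two (by linarith) (by linarith) (by linarith)
  have g10 : 0 ≤ sin (π / 6 - P) - √3 / 3 * sin q * (2 * cos P * cos q - √3 / 2) := by
    have a1 : √3 / 3 * (2 * cos P * cos q - √3 / 2) ≤ 1 := by nlinarith
    have a2 : 0 ≤ √3 / 3 * (2 * cos P * cos q - √3 / 2) := by positivity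
    have a3 : √3 / 3 * sin q * (2 * cos P * cos q - √3 / 2) =
        (√3 / 3 * (2 * cos P * cos q - √3 / 2)) * sin q := by ring
    rw [a3]
    have a4 : (√3 / 3 * (2 * cos P * cos q - √3 / 2)) * sin q ≤
        (√3 / 3 * (2 * cos P * cos q - √3 / 2)) * sin (π / 6 - P) :=
      mul_le_mul_of_nonneg_left g9 a2
    have a5 : (√3 / 3 * (2 * cos P * cos q - √3 / 2)) * sin (π / 6 - P) ≤ 1 * sin (π / 6 - P) :=
      mul_le_mul_of_nonneg_right a1 g2
    linarith
  exact mul_nonneg (by linarith) g10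

/-- The main inequality is monotone in `x`, `X`, `Z`. -/
private theorem II_mono {s v x X Z x' X' Z' : ℝ} (hs : s ≤ √3 / 2) (hv : v ≤ √3 / 2)
    (hsv : √3 / 2 ≤ s + v) (hx : x ≤ x') (hX : X ≤ X') (hZ : Z ≤ Z') :
    II (√3) s v x X Z ≤ II (√3) s v x' X' Z' := by
  unfold II
  have h1 : (√3 / 2 - s) * ((x + 1 + s * √3 / 3) / 2) ≤
      (√3 / 2 - s) * ((x' + 1 + s * √3 / 3) / 2) :=
    mul_le_mul_of_nonneg_left (by linarith) (by linarith)
  have h2 : (s + v - √3 / 2) * Z ≤ (s + v - √3 / 2) * Z' :=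
    mul_le_mul_of_nonneg_left hZ (by linarith)
  have h3 : (√3 / 2 - v) * ((3 * X - 1 - v * √3 / 3) / 2) ≤
      (√3 / 2 - v) * ((3 * X' - 1 - v * √3 / 3) / 2) :=
    mul_le_mul_of_nonneg_left (by linarith) (by linarith)
  linarith

/-- The main inequality. -/
theorem ineq_main {s v x X Z : ℝ} (hs0 : 0 ≤ s) (hs : s ≤ √3 / 2) (hv0 : 0 ≤ v)
    (hv : v ≤ √3 / 2) (hsv : √3 / 2 ≤ s + v) (hx : √(1 - s ^ 2) ≤ x) (hX : √(1 - v ^ 2) ≤ X)
    (hZ : √(1 - s ^ 2) + √(1 - v ^ 2) ≤ Z)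
    (hw : s + v ≤ 1 →
      (x + √(1 - (s + v) ^ 2) ≤ X ∧
        √(1 - s ^ 2) + (√(1 - (s + v) ^ 2) / 2 + √3 / 2 * (s + v)) ≤ Z) ∨
      (X + √(1 - (s + v) ^ 2) ≤ x ∧
        √(1 - v ^ 2) + (√(1 - (s + v) ^ 2) / 2 + √3 / 2 * (s + v)) ≤ Z)) :
    0 ≤ II (√3) s v x X Z := by
  have hpi := pi_pos
  have hr := r_sq
  have hr0 := r_pos
  have hr1 := r_gt
  have hr2 := r_lt
  set β := arcsin s with hβ
  set γ := arcsin v with hγ
  have sβ : sin β = s := sin_arcsin (by linarith) (by linarith)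
  have sγ : sin γ = v := sin_arcsin (by linarith) (by linarith)
  have cβ : cos β = √(1 - s ^ 2) := cos_arcsin s
  have cγ : cos γ = √(1 - v ^ 2) := cos_arcsin v
  have β0 : 0 ≤ β := arcsin_nonneg.2 hs0
  have γ0 : 0 ≤ γ := arcsin_nonneg.2 hv0
  have hsin3 : arcsin (√3 / 2) = π / 3 := by
    rw [← sin_pi_div_three]
    exact arcsin_sin (by linarith) (by linarith)
  have β1 : β ≤ π / 3 := by
    rw [← hsin3]
    exact arcsin_le_arcsin hs
  have γ1 : γ ≤ π / 3 := by
    rw [← hsin3]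
    exact arcsin_le_arcsin hv
  rw [← cβ] at hx hZ hw
  rw [← cγ] at hX hZ hw
  rcases le_total (π / 3) (β + γ) with h | h
  · have h1 := ineq_Big (P := (β + γ) / 2 - π / 6) (q := (β - γ) / 2) (by linarith) (by linarith)
      (by linarith) (by linarith)
    have e1 : π / 6 + ((β + γ) / 2 - π / 6 + (β - γ) / 2) = β := by ring
    have e2 : π / 6 + ((β + γ) / 2 - π / 6 - (β - γ) / 2) = γ := by ring
    rw [e1, e2, sβ, sγ] at h1
    exact h1.trans (II_mono hs hv hsv hx hX hZ)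
  · have hV : s + v ≤ cos (β - π / 6) := by
      have a1 : sin γ ≤ sin (π / 3 - β) :=
        sin_le_sin_of_le_of_le_pi_div_two (by linarith) (by linarith) (by linarith)
      have a2 : sin (π / 3 - β) = √3 / 2 * cos β - sin β / 2 := by
        rw [sin_sub, sin_pi_div_three, cos_pi_div_three]
        ring
      have a3 : cos (β - π / 6) = √3 / 2 * cos β + sin β / 2 := by
        rw [cos_sub, sin_pi_div_six, cos_pi_div_six]
        ring
      rw [a3]
      rw [a2, sγ] at a1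
      rw [sβ] at a1 ⊢
      linarith
    have hV' : s + v ≤ cos (γ - π / 6) := by
      have a1 : sin β ≤ sin (π / 3 - γ) :=
        sin_le_sin_of_le_of_le_pi_div_two (by linarith) (by linarith) (by linarith)
      have a2 : sin (π / 3 - γ) = √3 / 2 * cos γ - sin γ / 2 := by
        rw [sin_sub, sin_pi_div_three, cos_pi_div_three]
        ring
      have a3 : cos (γ - π / 6) = √3 / 2 * cos γ + sin γ / 2 := by
        rw [cos_sub, sin_pi_div_six, cos_pi_div_six]
        ring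
      rw [a3]
      rw [a2, sβ] at a1
      rw [sγ] at a1 ⊢
      linarith
    have hV1 : s + v ≤ 1 := hV.trans (cos_le_one _)
    set ψ := arccos (s + v) with hψ
    have cψ : cos ψ = s + v := cos_arccos (by linarith) hV1
    have sψ : sin ψ = √(1 - (s + v) ^ 2) := sin_arccos _
    have ψ0 : 0 ≤ ψ := arccos_nonneg _
    have ψ1 : ψ ≤ π / 6 := by
      have a1 : arccos (√3 / 2) = π / 6 := by
        rw [← cos_pi_div_six]
        exact arccos_cos (by linarith) (by linarith)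
      rw [← a1]
      exact arccos_le_arccos hsv
    have key : ∀ θ : ℝ, |θ| ≤ π → s + v ≤ cos θ → |θ| ≤ ψ := by
      intro θ h1 h2
      rw [← cos_abs] at h2
      have h3 := arccos_le_arccos h2
      rwa [arccos_cos (abs_nonneg _) h1] at h3
    rcases hw hV1 with ⟨h1, h2⟩ | ⟨h1, h2⟩
    · have k1 := abs_le.1 (key (β - π / 6) (by rw [abs_le]; constructor <;> linarith) hV)
      have h3 := ineq_S1 (u := (ψ + (β - π / 6)) / 2) (d := (ψ - (β - π / 6)) / 2)
        (by linarith [k1.1]) (by linarith [k1.2]) (by linarith)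
      have e1 : π / 6 + ((ψ + (β - π / 6)) / 2 - (ψ - (β - π / 6)) / 2) = β := by ring
      have e2 : (ψ + (β - π / 6)) / 2 + (ψ - (β - π / 6)) / 2 = ψ := by ring
      rw [e1, e2, sβ, cψ, sψ] at h3
      have e3 : s + v - s = v := by ring
      rw [e3] at h3
      exact h3.trans (II_mono hs hv hsv hx (by linarith) h2)
    · have k1 := abs_le.1 (key (γ - π / 6) (by rw [abs_le]; constructor <;> linarith) hV')
      have h3 := ineq_S2 (u := (ψ + (γ - π / 6)) / 2) (d := (ψ - (γ - π / 6)) / 2)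
        (by linarith [k1.1]) (by linarith [k1.2]) (by linarith)
      have e1 : π / 6 + ((ψ + (γ - π / 6)) / 2 - (ψ - (γ - π / 6)) / 2) = γ := by ring
      have e2 : (ψ + (γ - π / 6)) / 2 + (ψ - (γ - π / 6)) / 2 = ψ := by ring
      rw [e1, e2, sγ, cψ, sψ] at h3
      have e3 : s + v - v = s := by ring
      rw [e3] at h3
      exact h3.trans (II_mono hs hv hsv (by linarith) hX h2)

/-- The inequality in the case of no close upper neighbour. -/
theorem ineq_D1 {v X : ℝ} (hv0 : 0 ≤ v) (hv : v ≤ √3 / 2) (hX : √(1 - v ^ 2) ≤ X) :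
    √3 / 2 ≤ v * (X + 1 / 2) + (√3 / 2 - v) * ((3 * X - 1 - v * √3 / 3) / 2) := by
  have hpi := pi_pos
  have hr := r_sq
  have hr0 := r_pos
  have hr1 := r_gt
  have hr2 := r_lt
  set γ := arcsin v with hγ
  have sγ : sin γ = v := sin_arcsin (by linarith) (by linarith)
  have cγ : cos γ = √(1 - v ^ 2) := cos_arcsin v
  have γ0 : 0 ≤ γ := arcsin_nonneg.2 hv0
  have hsin3 : arcsin (√3 / 2) = π / 3 := by
    rw [← sin_pi_div_three]
    exact arcsin_sin (by linarith) (by linarith)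
  have γ1 : γ ≤ π / 3 := by
    rw [← hsin3]
    exact arcsin_le_arcsin hv
  rw [← cγ] at hX
  have e1 : v = 2 * sin (γ / 2) * cos (γ / 2) := by
    rw [← sin_two_mul, ← sγ]
    congr 1
    ring
  have e2 : cos γ = 1 - 2 * sin (γ / 2) ^ 2 := by
    have : cos γ = cos (2 * (γ / 2)) := by ring_nf
    rw [this, cos_two_mul, cs_sq]
    ring
  have h1 := id_D1 (cs_sq (γ / 2)) hr
  rw [← e2, ← e1] at h1
  have g1 : 0 ≤ sin (γ / 2) := sin_nonneg_of_nonneg_of_le_pi (by linarith) (by linarith)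
  have g2 : 0 ≤ cos (γ / 2) - √3 * sin (γ / 2) := by
    have a1 := sin_six_sub (γ / 2)
    have a2 : 0 ≤ sin (π / 6 - γ / 2) := sin_nonneg_of_nonneg_of_le_pi (by linarith) (by linarith)
    linarith
  have g3 : 0 ≤ cos (γ / 2) ^ 2 / 4 - √3 * sin (γ / 2) * cos (γ / 2) / 6
      + 3 / 4 * sin (γ / 2) ^ 2 := by
    nlinarith [sq_nonneg (cos (γ / 2) - √3 * sin (γ / 2)), sq_nonneg (cos (γ / 2)),
      sq_nonneg (sin (γ / 2))]
  have g4 := mul_nonneg (mul_nonneg (mul_nonneg (by norm_num : (0 : ℝ) ≤ 2) g1) g2) g3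
  have m1 : v * (cos γ + 1 / 2) ≤ v * (X + 1 / 2) := mul_le_mul_of_nonneg_left (by linarith) hv0
  have m2 : (√3 / 2 - v) * ((3 * cos γ - 1 - v * √3 / 3) / 2) ≤
      (√3 / 2 - v) * ((3 * X - 1 - v * √3 / 3) / 2) :=
    mul_le_mul_of_nonneg_left (by linarith) (by linarith)
  linarith

end Pool.Agent.StripChord
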