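import Pool.Agent.StripChord.Reals

/-! # The chord bound: the third point -/

namespace Pool.Agent.StripChord

open Real

theorem r3_sq : √3 ^ 2 = (3 : ℝ) := Real.sq_sqrt (by norm_num)

theorem r3_pos : 0 < √(3 : ℝ) := Real.sqrt_pos.2 (by norm_num)

theorem r3_gt : (1.732 : ℝ) < √3 := by
  have := r3_sq
  have := r3_pos
  nlinarith

theorem r3_lt : √3 < (1.7321 : ℝ) := by
  have := r3_sq
  have := r3_pos
  nlinarith

/-- The chord of the unit circle between the angles 0 and 60. -/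
theorem chord {c s : ℝ} (hc : 0 ≤ c) (hs0 : 0 ≤ s) (hs : s ≤ √3 / 2) (h : 1 ≤ c ^ 2 + s ^ 2) :
    1 - s * √3 / 3 ≤ c := by
  have h3 := r3_sq
  have h0 := r3_pos
  by_contra hcon
  push Not at hcon
  have h1 : c ^ 2 < (1 - s * √3 / 3) ^ 2 := by
    apply pow_lt_pow_left₀ hcon hc (by norm_num)
  have h2 : (1 - s * √3 / 3) ^ 2 = 1 - 2 * s * √3 / 3 + s ^ 2 / 3 := by
    have : (1 - s * √3 / 3) ^ 2 = 1 - 2 * s * √3 / 3 + s ^ 2 * √3 ^ 2 / 9 := by ring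
    rw [this, h3]
    ring
  have h4 : s ^ 2 ≤ s * (√3 / 2) := by nlinarith
  nlinarith

theorem half_of {c s : ℝ} (hc : 0 ≤ c) (hs0 : 0 ≤ s) (hs : s ≤ √3 / 2) (h : 1 ≤ c ^ 2 + s ^ 2) :
    1 / 2 ≤ c := by
  have h1 := chord hc hs0 hs h
  have h3 := r3_sq
  have h0 := r3_pos
  nlinarith

theorem le_of_sq_ge {a b : ℝ} (hb : 0 ≤ b) (h : a ^ 2 ≤ b ^ 2) : a ≤ b := abs_le_of_sq_le_sq' h hb |>.2

theorem sqrt_le_of {c s : ℝ} (hc : 0 ≤ c) (h : 1 ≤ c ^ 2 + s ^ 2) : √(1 - s ^ 2) ≤ c := by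
  rw [Real.sqrt_le_left hc]
  linarith

/-- The position of the third point. -/
theorem third {V w x X A B xq : ℝ} (hV : √3 / 2 ≤ V) (hw : w ^ 2 = 1 - V ^ 2)
    (hA : 0 ≤ A) (hB : 0 ≤ B) (hAB : A + B = V) (hxX : x + w ≤ X) (h1 : x ≤ xq) (h2 : X ≤ xq)
    (h3 : 1 ≤ (xq - x) ^ 2 + A ^ 2) (h4 : 1 ≤ (xq - X) ^ 2 + B ^ 2) :
    x + (w / 2 + √3 / 2 * V) ≤ xq := by
  have hr := r3_sq
  have hr0 := r3_pos
  have hV0 : 0 < V := by linarith
  have hsq : (w / 2 + √3 / 2 * V) ^ 2 + (V / 2 - √3 / 2 * w) ^ 2 = 1 := by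
    have : (w / 2 + √3 / 2 * V) ^ 2 + (V / 2 - √3 / 2 * w) ^ 2 =
        (w ^ 2 + V ^ 2) / 4 + √3 ^ 2 * (w ^ 2 + V ^ 2) / 4 := by ring
    rw [this, hr, hw]
    ring
  have hsq2 : (√3 / 2 * V - w / 2) ^ 2 + (V / 2 + √3 / 2 * w) ^ 2 = 1 := by
    have : (√3 / 2 * V - w / 2) ^ 2 + (V / 2 + √3 / 2 * w) ^ 2 =
        (w ^ 2 + V ^ 2) / 4 + √3 ^ 2 * (w ^ 2 + V ^ 2) / 4 := by ring
    rw [this, hr, hw]
    ring
  have hV2 : 3 / 4 ≤ V ^ 2 := by nlinarith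
  have hA0 : 0 ≤ V / 2 - √3 / 2 * w := by
    have : (√3 * w) ^ 2 ≤ V ^ 2 := by
      rw [mul_pow, hr, hw]
      linarith
    have := le_of_sq_ge hV0.le this
    linarith
  rcases le_total A (V / 2 - √3 / 2 * w) with h | h
  · have h5 : A ^ 2 ≤ (V / 2 - √3 / 2 * w) ^ 2 := pow_le_pow_left₀ hA h 2
    have h6 : (w / 2 + √3 / 2 * V) ^ 2 ≤ (xq - x) ^ 2 := by linarith
    have := le_of_sq_ge (by linarith) h6
    linarith
  · have h5 : B ^ 2 ≤ (V / 2 + √3 / 2 * w) ^ 2 := pow_le_pow_left₀ hB (by linarith) 2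
    have h6 : (√3 / 2 * V - w / 2) ^ 2 ≤ (xq - X) ^ 2 := by linarith
    have := le_of_sq_ge (by linarith) h6
    linarith

/-- The third point is not closer than the sum of the two horizontal components. -/
theorem third_sum {s v x X A B xq : ℝ}
    (hA : 0 ≤ A) (hB : 0 ≤ B) (hAB : A + B = s + v) (hx : √(1 - s ^ 2) ≤ x)
    (hX : √(1 - v ^ 2) ≤ X) (h1 : x ≤ xq) (h2 : X ≤ xq)
    (h3 : 1 ≤ (xq - x) ^ 2 + A ^ 2) (h4 : 1 ≤ (xq - X) ^ 2 + B ^ 2) :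
    √(1 - s ^ 2) + √(1 - v ^ 2) ≤ xq := by
  rcases le_total A v with h | h
  · have h5 : A ^ 2 ≤ v ^ 2 := pow_le_pow_left₀ hA h 2
    have h6 : √(1 - v ^ 2) ≤ xq - x := sqrt_le_of (by linarith) (by linarith)
    linarith
  · have h5 : B ^ 2 ≤ s ^ 2 := pow_le_pow_left₀ hB (by linarith) 2
    have h6 : √(1 - s ^ 2) ≤ xq - X := sqrt_le_of (by linarith) (by linarith)
    linarith

private theorem kap_le {V w : ℝ} (hw : w ^ 2 = 1 - V ^ 2) :
    w / 2 + √3 / 2 * V ≤ 1 := by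
  have hr := r3_sq
  have hr0 := r3_pos
  have hsq : (w / 2 + √3 / 2 * V) ^ 2 + (V / 2 - √3 / 2 * w) ^ 2 = 1 := by
    have : (w / 2 + √3 / 2 * V) ^ 2 + (V / 2 - √3 / 2 * w) ^ 2 =
        (w ^ 2 + V ^ 2) / 4 + √3 ^ 2 * (w ^ 2 + V ^ 2) / 4 := by ring
    rw [this, hr, hw]
    ring
  apply le_of_sq_ge (by norm_num)
  nlinarith [sq_nonneg (V / 2 - √3 / 2 * w)]

/-- A common lower bound for the third points, for which the main inequality holds. -/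
theorem exists_Z {s v x X : ℝ} (hs0 : 0 ≤ s) (hs : s ≤ √3 / 2) (hv0 : 0 ≤ v)
    (hv : v ≤ √3 / 2) (hsv : √3 / 2 ≤ s + v) (hx : √(1 - s ^ 2) ≤ x) (hX : √(1 - v ^ 2) ≤ X)
    (hd : 1 ≤ (x - X) ^ 2 + (s + v) ^ 2) :
    ∃ Z, Z ≤ 2 ∧ 0 ≤ II (√3) s v x X Z ∧ ∀ xq A B, 0 ≤ A → 0 ≤ B → A + B = s + v →
      x ≤ xq → X ≤ xq → 1 ≤ (xq - x) ^ 2 + A ^ 2 → 1 ≤ (xq - X) ^ 2 + B ^ 2 → Z ≤ xq := by
  have c1 : √(1 - s ^ 2) ≤ 1 :=
    Real.sqrt_le_iff.2 ⟨by norm_num, by nlinarith [sq_nonneg s]⟩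
  have c2 : √(1 - v ^ 2) ≤ 1 :=
    Real.sqrt_le_iff.2 ⟨by norm_num, by nlinarith [sq_nonneg v]⟩
  by_cases h1 : s + v ≤ 1
  · have hw : √(1 - (s + v) ^ 2) ^ 2 = 1 - (s + v) ^ 2 := Real.sq_sqrt (by nlinarith)
    have hw0 := Real.sqrt_nonneg (1 - (s + v) ^ 2)
    have hk := kap_le hw
    have hor : x + √(1 - (s + v) ^ 2) ≤ X ∨ X + √(1 - (s + v) ^ 2) ≤ x := by
      rcases le_total x X with h | h
      · left
        have := sqrt_le_of (c := X - x) (s := s + v) (by linarith) (by linarith [sq_nonneg (x - X),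
          (by ring : (X - x) ^ 2 = (x - X) ^ 2)])
        linarith
      · right
        have := sqrt_le_of (c := x - X) (s := s + v) (by linarith) hd
        linarith
    rcases hor with h | h
    · refine ⟨max (√(1 - s ^ 2) + √(1 - v ^ 2))
        (√(1 - s ^ 2) + (√(1 - (s + v) ^ 2) / 2 + √3 / 2 * (s + v))), ?_, ?_, ?_⟩
      · exact max_le (by linarith) (by linarith)
      · exact ineq_main hs0 hs hv0 hv hsv hx hX (le_max_left _ _)
          (fun _ => Or.inl ⟨h, le_max_right _ _⟩)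
      · intro xq A B hA hB hAB k1 k2 k3 k4
        refine max_le (third_sum hA hB hAB hx hX k1 k2 k3 k4) ?_
        have := third hsv hw hA hB hAB h k1 k2 k3 k4
        linarith
    · refine ⟨max (√(1 - s ^ 2) + √(1 - v ^ 2))
        (√(1 - v ^ 2) + (√(1 - (s + v) ^ 2) / 2 + √3 / 2 * (s + v))), ?_, ?_, ?_⟩
      · exact max_le (by linarith) (by linarith)
      · exact ineq_main hs0 hs hv0 hv hsv hx hX (le_max_left _ _)
          (fun _ => Or.inr ⟨h, le_max_right _ _⟩)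
      · intro xq A B hA hB hAB k1 k2 k3 k4
        refine max_le (third_sum hA hB hAB hx hX k1 k2 k3 k4) ?_
        have := third hsv hw hB hA (by linarith) h k2 k1 k4 k3
        linarith
  · refine ⟨√(1 - s ^ 2) + √(1 - v ^ 2), by linarith, ?_, ?_⟩
    · exact ineq_main hs0 hs hv0 hv hsv hx hX le_rfl (fun h => absurd h h1)
    · intro xq A B hA hB hAB k1 k2 k3 k4
      exact third_sum hA hB hAB hx hX k1 k2 k3 k4

/-- In the middle part of the windows the next point is to the right of the lower neighbour. -/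
theorem far_lemma {s v y x X xq : ℝ} (hs : s < √3 / 2) (hv : v < √3 / 2) (hy : 0 < y)
    (hys : y < s) (hx : 0 ≤ x) (h1 : 1 ≤ x ^ 2 + s ^ 2) (h2 : x ≤ xq)
    (h3 : 1 ≤ (xq - x) ^ 2 + (s - y) ^ 2) (h4 : 1 ≤ (xq - X) ^ 2 + (y + v) ^ 2) (hv0 : 0 ≤ v)
    (h5 : X < 1 + v * √3 / 9) : X ≤ xq := by
  have hr := r3_sq
  have hr0 := r3_pos
  have hr1 := r3_gt
  have hr2 := r3_lt
  by_contra hcon
  push Not at hcon
  have a1 : 1 / 2 ≤ x := half_of hx (by linarith) hs.le h1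
  have a2 : v * √3 / 9 ≤ 1 / 6 := by nlinarith
  have a3 : (X - xq) + (xq - x) < 2 / 3 := by linarith
  have hX : 0 ≤ X - xq := by linarith
  have hq : 0 ≤ xq - x := by linarith
  have h4' : 1 ≤ (X - xq) ^ 2 + (y + v) ^ 2 := by
    have : (X - xq) ^ 2 = (xq - X) ^ 2 := by ring
    rw [this]
    exact h4
  rcases le_total y (1 / 10) with h | h
  · have b1 : 1 / 2 ≤ xq - x := half_of hq (by linarith) (by linarith) h3
    have b2 : (y + v) ^ 2 ≤ (0.9661 : ℝ) ^ 2 := pow_le_pow_left₀ (by linarith) (by linarith) 2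
    have b3 : (1 / 4 : ℝ) ≤ X - xq := le_of_sq_ge hX (by norm_num at b2 ⊢; linarith)
    linarith
  · rcases le_total y (1 / 8) with h' | h'
    · have b1 : (s - y) ^ 2 ≤ (0.7661 : ℝ) ^ 2 := pow_le_pow_left₀ (by linarith) (by linarith) 2
      have b2 : (y + v) ^ 2 ≤ (0.9911 : ℝ) ^ 2 := pow_le_pow_left₀ (by linarith) (by linarith) 2
      have b3 : (0.13 : ℝ) ≤ X - xq := le_of_sq_ge hX (by norm_num at b2 ⊢; linarith)
      have b4 : (0.642 : ℝ) ≤ xq - x := le_of_sq_ge hq (by norm_num at b1 ⊢; linarith)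
      linarith
    · have b1 : (s - y) ^ 2 ≤ (0.7411 : ℝ) ^ 2 := pow_le_pow_left₀ (by linarith) (by linarith) 2
      have b4 : (0.671 : ℝ) ≤ xq - x := le_of_sq_ge hq (by norm_num at b1 ⊢; linarith)
      linarith

end Pool.Agent.StripChord
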