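import Pool.Agent.StripNear.Accounting
import Pool.Agent.StripChord.Third

/-! # The chord bound: the edge correction

`kk d x` is the correction of an edge of a slab with height difference `d` and horizontal length
`x`; `V X p a` is the distance to the next point of the slab with bottom `a` plus the correction. -/

namespace Pool.Agent.StripChord

open MeasureTheory Pool.Agent.StripNear

/-- The correction of an edge; positive for ascending edges, negative for descending edges. -/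
noncomputable def kk (d x : ℝ) : ℝ :=
  if 0 < d then max 0 ((1 + d * √3 / 3 - x) / 2)
  else if d < 0 then -max 0 ((1 + (-d) * √3 / 3 - x) / 2) else 0

theorem kk_neg (d x : ℝ) : kk (-d) x = -kk d x := by
  unfold kk
  rcases lt_trichotomy d 0 with h | h | h
  · rw [if_pos (by linarith : 0 < -d), if_neg (by linarith : ¬ 0 < d), if_pos h, neg_neg]
  · subst h
    simp
  · rw [if_neg (by linarith : ¬ 0 < -d), if_pos (by linarith : -d < 0), if_pos h, neg_neg]

theorem kk_up_nonneg {d x : ℝ} (hd : 0 < d) : 0 ≤ kk d x := by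
  unfold kk
  rw [if_pos hd]
  exact le_max_left _ _

theorem kk_up_ge {d x : ℝ} (hd : 0 < d) : (x + 1 + d * √3 / 3) / 2 ≤ x + kk d x := by
  unfold kk
  rw [if_pos hd]
  have := le_max_right 0 ((1 + d * √3 / 3 - x) / 2)
  linarith

/-- The value of a descending edge. -/
theorem kk_down_ge {d x m : ℝ} (hd : d ≤ 0) (h1 : m ≤ x)
    (h2 : m ≤ (3 * x - 1 - (-d) * √3 / 3) / 2) : m ≤ x + kk d x := by
  unfold kk
  rw [if_neg (by linarith)]
  by_cases h : d < 0
  · rw [if_pos h]
    have : max 0 ((1 + (-d) * √3 / 3 - x) / 2) ≤ x - m := max_le (by linarith) (by linarith)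
    linarith
  · rw [if_neg h]
    linarith

theorem kk_abs (d x : ℝ) : |kk d x| ≤ 1 + |d| + |x| := by
  have hr := r3_pos
  have hr2 := r3_lt
  have hd : |d| * √3 / 3 ≤ |d| := by
    have := abs_nonneg d
    nlinarith
  have hm : ∀ e : ℝ, e = |d| → |max 0 ((1 + e * √3 / 3 - x) / 2)| ≤ 1 + |d| + |x| := by
    intro e he
    rw [he, abs_of_nonneg (le_max_left _ _)]
    have h1 := abs_nonneg d
    have h2 := abs_nonneg x
    have h3 := neg_abs_le x
    exact max_le (by linarith) (by linarith)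
  unfold kk
  split_ifs with h1 h2
  · exact hm d (abs_of_pos h1).symm
  · rw [abs_neg]
    exact hm (-d) (abs_of_neg h2).symm
  · rw [abs_zero]
    positivity

/-- `p` and `q` are consecutive points of the slab with bottom `a`, at distance less than 2. -/
def Adj (X : Finset Pt) (a : ℝ) (p q : Pt) : Prop :=
  p ∈ X ∧ q ∈ X ∧ (a ≤ p.2 ∧ p.2 < a + h0) ∧ (a ≤ q.2 ∧ q.2 < a + h0) ∧ p.1 < q.1 ∧
    q.1 - p.1 < 2 ∧ ∀ r ∈ X, a ≤ r.2 → r.2 < a + h0 → ¬ (p.1 < r.1 ∧ r.1 < q.1)

open Classical in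
/-- The correction of the point `p` in the slab with bottom `a`. -/
noncomputable def R (X : Finset Pt) (p : Pt) (a : ℝ) : ℝ :=
  ∑ q ∈ X, if Adj X a p q then kk (q.2 - p.2) (q.1 - p.1) else 0

/-- Corrected distance to the next point. -/
noncomputable def V (X : Finset Pt) (p : Pt) (a : ℝ) : ℝ := xn X p a + R X p a

variable {X : Finset Pt} {p q : Pt} {a : ℝ}

/-- Two points of a slab with the same abscissa are equal. -/
theorem eq_of_fst (hX : UnitSep X) (hp : p ∈ X) (hq : q ∈ X) (h1 : q.2 - p.2 < h0)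
    (h2 : p.2 - q.2 < h0) (h : p.1 = q.1) : p = q := by
  by_contra hne
  have h3 := hX p hp q hq hne
  rw [h] at h3
  have h4 := h0_sq
  have h5 := h0_pos
  nlinarith

theorem adj_unique (hX : UnitSep X) {q' : Pt} (h : Adj X a p q) (h' : Adj X a p q') : q = q' := by
  obtain ⟨_, hq, _, hqa, h1, _, h2⟩ := h
  obtain ⟨_, hq', _, hqa', h1', _, h2'⟩ := h'
  have e1 := h2 q' hq' hqa'.1 hqa'.2
  have e2 := h2' q hq hqa.1 hqa.2
  push Not at e1 e2
  exact eq_of_fst hX hq hq' (by linarith [hqa.1, hqa'.2]) (by linarith [hqa.2, hqa'.1])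
    (le_antisymm (e1 h1') (e2 h1))

theorem R_of_adj (hX : UnitSep X) (h : Adj X a p q) :
    R X p a = kk (q.2 - p.2) (q.1 - p.1) := by
  classical
  unfold R
  rw [Finset.sum_eq_single q]
  · rw [if_pos h]
  · intro r _ hr
    rw [if_neg]
    intro h'
    exact hr (adj_unique hX h' h)
  · intro hq
    exact absurd h.2.1 hq

theorem R_of_not (h : ∀ q, ¬ Adj X a p q) : R X p a = 0 := by
  classical
  unfold R
  exact Finset.sum_eq_zero fun q _ => if_neg (h q)

theorem xn_of_adj (h : Adj X a p q) : xn X p a = q.1 - p.1 := by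
  obtain ⟨_, hq, _, hqa, h1, h3, h2⟩ := h
  refine le_antisymm (xn_le hq hqa.1 hqa.2 h1) (le_xn.2 ⟨by linarith, ?_⟩)
  intro r hr ha hb hpr
  have := h2 r hr ha hb
  push Not at this
  linarith [this hpr]

/-- If there is a point of the slab on the right of `p` at distance less than 2, there is a next
point. -/
theorem exists_adj (hp : p ∈ X) (hpa : a ≤ p.2 ∧ p.2 < a + h0) (hq : q ∈ X)
    (hqa : a ≤ q.2 ∧ q.2 < a + h0) (h1 : p.1 < q.1) (h2 : q.1 - p.1 < 2) :
    ∃ r, Adj X a p r := by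
  classical
  obtain ⟨r, hr, hmin⟩ := Finset.exists_min_image
    (X.filter fun r => (a ≤ r.2 ∧ r.2 < a + h0) ∧ p.1 < r.1) (fun r => r.1)
    ⟨q, Finset.mem_filter.2 ⟨hq, hqa, h1⟩⟩
  obtain ⟨hrX, hra, hpr⟩ := Finset.mem_filter.1 hr
  have h3 := hmin q (Finset.mem_filter.2 ⟨hq, hqa, h1⟩)
  refine ⟨r, hp, hrX, hpa, hra, hpr, by linarith, ?_⟩
  rintro u hu hua hub ⟨h4, h5⟩
  have := hmin u (Finset.mem_filter.2 ⟨hu, ⟨hua, hub⟩, h4⟩)
  linarith

theorem xn_of_not (hp : p ∈ X) (hpa : a ≤ p.2 ∧ p.2 < a + h0) (h : ∀ q, ¬ Adj X a p q) :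
    xn X p a = 2 := by
  refine le_antisymm (xn_le_two X p a) (le_xn.2 ⟨le_rfl, ?_⟩)
  intro r hr ha hb hpr
  by_contra hcon
  push Not at hcon
  obtain ⟨u, hu⟩ := exists_adj hp hpa hr ⟨ha, hb⟩ hpr hcon
  exact h u hu

/-- Lower bounds for `V`. -/
theorem V_ge (hX : UnitSep X) (hp : p ∈ X) (hpa : a ≤ p.2 ∧ p.2 < a + h0) {m : ℝ} (hm : m ≤ 2)
    (h : ∀ q, Adj X a p q → m ≤ (q.1 - p.1) + kk (q.2 - p.2) (q.1 - p.1)) : m ≤ V X p a := by
  unfold V
  by_cases hq : ∃ q, Adj X a p q
  · obtain ⟨q, hq⟩ := hq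
    rw [xn_of_adj hq, R_of_adj hX hq]
    exact h q hq
  · push Not at hq
    rw [xn_of_not hp hpa hq, R_of_not hq, add_zero]
    exact hm

theorem measurableSet_adj (X : Finset Pt) (p q : Pt) : MeasurableSet {a : ℝ | Adj X a p q} := by
  have m : ∀ r : Pt, MeasurableSet {a : ℝ | a ≤ r.2 ∧ r.2 < a + h0} := by
    intro r
    have h2 : MeasurableSet {a : ℝ | a ≤ r.2} := measurableSet_Iic
    have h3 : MeasurableSet {a : ℝ | r.2 < a + h0} :=
      measurableSet_lt measurable_const (measurable_id.add_const h0)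
    exact h2.inter h3
  have e : {a : ℝ | Adj X a p q} = {_a : ℝ | p ∈ X ∧ q ∈ X} ∩ ({a : ℝ | a ≤ p.2 ∧ p.2 < a + h0} ∩
      ({a : ℝ | a ≤ q.2 ∧ q.2 < a + h0} ∩ ({_a : ℝ | p.1 < q.1 ∧ q.1 - p.1 < 2} ∩
        ⋂ r ∈ X, ({a : ℝ | a ≤ r.2 ∧ r.2 < a + h0}ᶜ ∪ {_a : ℝ | ¬ (p.1 < r.1 ∧ r.1 < q.1)})))) := by
    ext a
    simp only [Set.mem_setOf_eq, Set.mem_inter_iff, Set.mem_iInter, Set.mem_union,
      Set.mem_compl_iff]
    unfold Adj
    constructor
    · rintro ⟨h1, h2, h3, h4, h5, h6, h7⟩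
      refine ⟨⟨h1, h2⟩, h3, h4, ⟨h5, h6⟩, fun r hr => ?_⟩
      by_cases h : a ≤ r.2 ∧ r.2 < a + h0
      · exact Or.inr (h7 r hr h.1 h.2)
      · exact Or.inl h
    · rintro ⟨⟨h1, h2⟩, h3, h4, ⟨h5, h6⟩, h7⟩
      refine ⟨h1, h2, h3, h4, h5, h6, fun r hr ha hb => ?_⟩
      rcases h7 r hr with h | h
      · exact absurd ⟨ha, hb⟩ h
      · exact h
  rw [e]
  refine (MeasurableSet.const _).inter ((m p).inter ((m q).inter ((MeasurableSet.const _).inter ?_)))
  exact Finset.measurableSet_biInter _ fun r _ => (m r).compl.union (MeasurableSet.const _)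

theorem measurable_R (X : Finset Pt) (p : Pt) : Measurable (fun a => R X p a) := by
  classical
  unfold R
  refine Finset.measurable_sum _ fun q _ => ?_
  exact Measurable.ite (measurableSet_adj X p q) measurable_const measurable_const

theorem R_bdd (X : Finset Pt) (p : Pt) (a : ℝ) :
    |R X p a| ≤ ∑ q ∈ X, (1 + |q.2 - p.2| + |q.1 - p.1|) := by
  classical
  unfold R
  refine (Finset.abs_sum_le_sum_abs _ _).trans (Finset.sum_le_sum fun q _ => ?_)
  split_ifs
  · exact kk_abs _ _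
  · rw [abs_zero]
    positivity

theorem R_intervalIntegrable (X : Finset Pt) (p : Pt) (a b : ℝ) :
    IntervalIntegrable (fun t => R X p t) volume a b := by
  rw [intervalIntegrable_iff]
  refine Measure.integrableOn_of_bounded (M := ∑ q ∈ X, (1 + |q.2 - p.2| + |q.1 - p.1|)) ?_
    (measurable_R X p).aestronglyMeasurable
    (Filter.Eventually.of_forall fun t => R_bdd X p t)
  rw [Set.uIoc, Real.volume_Ioc]
  exact ENNReal.ofReal_ne_top

theorem V_intervalIntegrable (X : Finset Pt) (p : Pt) (a b : ℝ) :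
    IntervalIntegrable (fun t => V X p t) volume a b :=
  (xn_intervalIntegrable X p a b).add (R_intervalIntegrable X p a b)

/-- A lower bound for an integral of `V`. -/
theorem int_ge {c d m : ℝ} (h : c ≤ d) (hV : ∀ a, c < a → a < d → m ≤ V X p a) :
    (d - c) * m ≤ ∫ a in c..d, V X p a := by
  have h1 := intervalIntegral.integral_mono_on_of_le_Ioo (μ := volume) (a := c) (b := d)
    (f := fun _ => m) (g := fun a => V X p a) h intervalIntegrable_const
    (V_intervalIntegrable X p c d) (fun x hx => hV x hx.1 hx.2)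
  rwa [intervalIntegral.integral_const, smul_eq_mul] at h1

end Pool.Agent.StripChord
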