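import Pool.Agent.StripChord.Slab

/-! # The chord bound: the vertex inequality -/

namespace Pool.Agent.StripChord

open MeasureTheory Pool.Agent.StripNear

variable {X : Finset Pt} {p q2 q' : Pt}

theorem h0_eq : h0 = √3 / 2 := rfl

theorem sep' (hX : UnitSep X) {p q : Pt} (hp : p ∈ X) (hq : q ∈ X) (h : p ≠ q) :
    1 ≤ (q.1 - p.1) ^ 2 + (q.2 - p.2) ^ 2 := by
  have := hX p hp q hq h
  have e : (q.1 - p.1) ^ 2 + (q.2 - p.2) ^ 2 = (p.1 - q.1) ^ 2 + (p.2 - q.2) ^ 2 := by ring
  rw [e]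
  exact this

/-- Ascending edges have value at least one. -/
theorem up_one {d x : ℝ} (hd : 0 < d) (hdh : d < h0) (hx : 0 ≤ x) (h : 1 ≤ x ^ 2 + d ^ 2) :
    1 ≤ x + kk d x := by
  have h1 := chord hx hd.le (by rw [← h0_eq]; exact hdh.le) h
  have h2 := kk_up_ge (x := x) hd
  linarith

/-- The nearest point in the lower windows, when it has value less than one. -/
structure Low (X : Finset Pt) (p q2 : Pt) : Prop where
  pmem : p ∈ X
  mem : q2 ∈ X
  lo : p.2 - h0 < q2.2
  hi : q2.2 ≤ p.2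
  rt : p.1 < q2.1
  min : ∀ r ∈ X, p.2 - h0 < r.2 → r.2 ≤ p.2 → p.1 < r.1 → q2.1 ≤ r.1
  close : q2.1 - p.1 < 1 + (p.2 - q2.2) * √3 / 9

theorem Low.sq (hX : UnitSep X) (h : Low X p q2) : 1 ≤ (q2.1 - p.1) ^ 2 + (p.2 - q2.2) ^ 2 := by
  have h1 := sep' hX h.pmem h.mem (by
    rintro rfl
    exact lt_irrefl _ h.rt)
  have e : (p.2 - q2.2) ^ 2 = (q2.2 - p.2) ^ 2 := by ring
  rw [e]
  exact h1

theorem Low.lt (h : Low X p q2) : q2.1 - p.1 < 7 / 6 := by
  have h1 := h.close
  have h2 := h.lo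
  have h3 := h.hi
  have hr := r3_sq
  have hr0 := r3_pos
  have h4 : (p.2 - q2.2) * √3 ≤ h0 * √3 := mul_le_mul_of_nonneg_right (by linarith) hr0.le
  rw [h0_eq] at h4
  nlinarith

/-- Later points of the lower windows. -/
theorem Low.down (hX : UnitSep X) (h : Low X p q2) {q : Pt} (hq : q ∈ X) (h1 : p.1 < q.1)
    (h2 : q2.2 < q.2) (h3 : q.2 ≤ p.2) : (q2.1 - p.1) + 1 / 2 ≤ q.1 - p.1 ∧
      q.1 - p.1 ≤ (q.1 - p.1) + kk (q.2 - p.2) (q.1 - p.1) := by
  have hr := r3_sq
  have hr0 := r3_pos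
  have hlo := h.lo
  have hmin := h.min q hq (by linarith) h3 h1
  have hne : q2 ≠ q := by
    rintro rfl
    exact lt_irrefl _ h2
  have hs := sep' hX h.mem hq hne
  have hh : q.2 - q2.2 ≤ √3 / 2 := by
    rw [← h0_eq]
    linarith
  have c1 := chord (c := q.1 - q2.1) (s := q.2 - q2.2) (by linarith) (by linarith) hh hs
  have c2 := half_of (c := q.1 - q2.1) (s := q.2 - q2.2) (by linarith) (by linarith) hh hs
  have c3 := chord (c := q2.1 - p.1) (s := p.2 - q2.2) (by linarith [h.rt]) (by linarith [h.hi])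
    (by rw [← h0_eq]; linarith) (h.sq hX)
  have c4 : (p.2 - q2.2) * √3 ≤ 3 / 2 := by
    have h4 : (p.2 - q2.2) * √3 ≤ h0 * √3 := mul_le_mul_of_nonneg_right (by linarith) hr0.le
    rw [h0_eq] at h4
    nlinarith
  refine ⟨by linarith, kk_down_ge (by linarith) le_rfl ?_⟩
  nlinarith

/-- Points above `p` close to `q2` in height. -/
theorem Low.up (hX : UnitSep X) (h : Low X p q2) {q : Pt} (hq : q ∈ X) (h1 : p.1 < q.1)
    (h2 : p.2 < q.2) (h3 : q.2 - q2.2 ≤ h0) : (q2.1 - p.1) + 1 / 2 ≤ q.1 - p.1 := by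
  have hr := r3_sq
  have hr0 := r3_pos
  have hlo := h.lo
  have hhi := h.hi
  have hrt := h.rt
  have hh : q.2 - q2.2 ≤ √3 / 2 := by rw [← h0_eq]; exact h3
  have hne : q2 ≠ q := by
    rintro rfl
    linarith
  have hs := sep' hX h.mem hq hne
  have hpq := sep' hX h.pmem hq (by
    rintro rfl
    exact lt_irrefl _ h1)
  have c1 := chord (c := q.1 - p.1) (s := q.2 - p.2) (by linarith) (by linarith)
    (by linarith) hpq
  rcases le_total q2.1 q.1 with hle | hle
  · have c2 := half_of (c := q.1 - q2.1) (s := q.2 - q2.2) (by linarith) (by linarith) hh hs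
    linarith
  · exfalso
    have hs' : 1 ≤ (q2.1 - q.1) ^ 2 + (q.2 - q2.2) ^ 2 := by
      have e : (q2.1 - q.1) ^ 2 = (q.1 - q2.1) ^ 2 := by ring
      rw [e]
      exact hs
    have c2 := chord (c := q2.1 - q.1) (s := q.2 - q2.2) (by linarith) (by linarith) hh hs'
    have c3 := h.close
    have c4 : (q.2 - q2.2) * √3 ≤ 3 / 2 := by
      have h4 : (q.2 - q2.2) * √3 ≤ (√3 / 2) * √3 := mul_le_mul_of_nonneg_right hh hr0.le
      nlinarith
    nlinarith

/-- In the windows not containing `q2` the value is at least one. -/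
theorem Low.one (hX : UnitSep X) (h : Low X p q2) {a : ℝ} (h1 : q2.2 < a) (h2 : a < p.2) :
    1 ≤ V X p a := by
  have hlo := h.lo
  have hX2 := half_of (c := q2.1 - p.1) (s := p.2 - q2.2) (by linarith [h.rt])
    (by linarith [h.hi]) (by rw [← h0_eq]; linarith) (h.sq hX)
  refine V_ge hX h.pmem ⟨h2.le, by linarith⟩ (by norm_num) fun q hq => ?_
  obtain ⟨_, hqX, _, hqa, hpq, _, _⟩ := hq
  rcases le_or_gt q.2 p.2 with h3 | h3
  · have := h.down hX hqX hpq (by linarith [hqa.1]) h3
    linarith [this.1, this.2]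
  · exact up_one (by linarith) (by linarith [hqa.2]) (by linarith)
      (sep' hX h.pmem hqX (by rintro rfl; exact lt_irrefl _ hpq))

/-- In the windows containing `q2` the value is at least that of `q2`. -/
theorem Low.two (hX : UnitSep X) (h : Low X p q2) {a : ℝ} (h1 : p.2 - h0 < a) (h2 : a < q2.2) :
    (3 * (q2.1 - p.1) - 1 - (p.2 - q2.2) * √3 / 3) / 2 ≤ V X p a := by
  have hlo := h.lo
  have hhi := h.hi
  have hr0 := r3_pos
  have hc := h.close
  have hv : 0 ≤ (p.2 - q2.2) * √3 := mul_nonneg (by linarith) hr0.le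
  refine V_ge hX h.pmem ⟨by linarith, by linarith⟩ (by linarith) fun q hq => ?_
  obtain ⟨_, hqX, _, hqa, hpq, _, hno⟩ := hq
  rcases le_or_gt q.2 p.2 with h3 | h3
  · have e1 := h.min q hqX (by linarith [hqa.1]) h3 hpq
    have e2 := hno q2 h.mem h2.le (by linarith)
    push Not at e2
    have e3 : q2 = q := by
      refine eq_of_fst hX h.mem hqX (by linarith [hqa.1, hqa.2]) (by linarith [hqa.1, hqa.2]) ?_
      exact le_antisymm e1 (e2 h.rt)
    rw [← e3]
    refine kk_down_ge (by linarith) (by linarith) (le_of_eq ?_)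
    ring
  · have := up_one (d := q.2 - p.2) (x := q.1 - p.1) (by linarith) (by linarith [hqa.2])
      (by linarith) (sep' hX h.pmem hqX (by rintro rfl; exact lt_irrefl _ hpq))
    linarith

/-- The integral over the windows without `q2`: no close upper neighbour. -/
theorem Low.keyA (hX : UnitSep X) (h : Low X p q2)
    (hS : ∀ q ∈ X, p.1 < q.1 → h0 < q.2 - q2.2 → q.2 < p.2 + h0 →
      (q2.1 - p.1) + 1 / 2 ≤ q.1 - p.1) :
    h0 - (h0 - (p.2 - q2.2)) * ((3 * (q2.1 - p.1) - 1 - (p.2 - q2.2) * √3 / 3) / 2) ≤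
      ∫ a in q2.2..p.2, V X p a := by
  have hlo := h.lo
  have hhi := h.hi
  have hlt := h.lt
  have h1 := int_ge (X := X) (p := p) (c := q2.2) (d := p.2) (m := (q2.1 - p.1) + 1 / 2) hhi (by
    intro a ha hb
    refine V_ge hX h.pmem ⟨hb.le, by linarith⟩ (by linarith) fun q hq => ?_
    obtain ⟨_, hqX, _, hqa, hpq, _, _⟩ := hq
    rcases le_or_gt q.2 p.2 with h3 | h3
    · have := h.down hX hqX hpq (by linarith [hqa.1]) h3
      linarith [this.1, this.2]
    · have h4 := kk_up_nonneg (d := q.2 - p.2) (x := q.1 - p.1) (by linarith)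
      rcases le_or_gt (q.2 - q2.2) h0 with h5 | h5
      · have := h.up hX hqX hpq h3 h5
        linarith
      · have := hS q hqX hpq h5 (by linarith [hqa.2])
        linarith)
  have h2 := ineq_D1 (v := p.2 - q2.2) (X := q2.1 - p.1) (by linarith)
    (by rw [← h0_eq]; linarith)
    (sqrt_le_of (by linarith [h.rt]) (h.sq hX))
  rw [← h0_eq] at h2
  linarith

/-- The integral over the windows without `q2`: a close upper neighbour `q'`. -/
theorem Low.keyB (hX : UnitSep X) (h : Low X p q2) (hq' : q' ∈ X) (h1 : p.1 < q'.1)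
    (h2 : h0 < q'.2 - q2.2) (h3 : q'.2 < p.2 + h0)
    (hmin : ∀ q ∈ X, p.1 < q.1 → h0 < q.2 - q2.2 → q.2 < p.2 + h0 → q'.1 ≤ q.1)
    (hclose : q'.1 - p.1 < (q2.1 - p.1) + 1 / 2) :
    h0 - (h0 - (p.2 - q2.2)) * ((3 * (q2.1 - p.1) - 1 - (p.2 - q2.2) * √3 / 3) / 2) ≤
      ∫ a in q2.2..p.2, V X p a := by
  have hr := r3_sq
  have hr0 := r3_pos
  have hlo := h.lo
  have hhi := h.hi
  have hlt := h.lt
  have hrt := h.rt
  have hsq := h.sq hX
  have hsq' := sep' hX h.pmem hq' (by rintro rfl; exact lt_irrefl _ h1)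
  have hd' := sep' hX h.mem hq' (by
    rintro rfl
    linarith [h0_pos])
  set x := q'.1 - p.1 with hx
  set s := q'.2 - p.2 with hs
  set Y := q2.1 - p.1 with hY
  set v := p.2 - q2.2 with hv
  have hs0 : 0 < s := by linarith
  have hv0 : 0 ≤ v := by linarith
  obtain ⟨Z, hZ2, hZI, hZ⟩ := exists_Z (s := s) (v := v) (x := x) (X := Y) hs0.le
    (by rw [← h0_eq]; linarith) hv0 (by rw [← h0_eq]; linarith) (by rw [← h0_eq]; linarith)
    (sqrt_le_of (by linarith) hsq') (sqrt_le_of (by linarith) hsq) (by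
      have e1 : x - Y = q'.1 - q2.1 := by rw [hx, hY]; ring
      have e2 : s + v = q'.2 - q2.2 := by rw [hs, hv]; ring
      rw [e1, e2]
      exact hd')
  have hm : q2.2 < q'.2 - h0 := by linarith
  have hm2 : q'.2 - h0 < p.2 := by linarith
  -- the windows containing `q'`
  have i1 := int_ge (X := X) (p := p) (c := q'.2 - h0) (d := p.2) (m := (x + 1 + s * √3 / 3) / 2)
    hm2.le (by
      intro a ha hb
      have hsr : s * √3 ≤ 3 / 2 := by
        have h4 : s * √3 ≤ (√3 / 2) * √3 :=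
          mul_le_mul_of_nonneg_right (by rw [← h0_eq]; linarith) hr0.le
        nlinarith
      refine V_ge hX h.pmem ⟨hb.le, by linarith⟩ (by linarith) fun q hq => ?_
      obtain ⟨_, hqX, _, hqa, hpq, _, hno⟩ := hq
      have e2 := hno q' hq' (by linarith) (by linarith)
      push Not at e2
      have e3 := e2 h1
      rcases le_or_gt q.2 p.2 with h3 | h3
      · have := h.down hX hqX hpq (by linarith [hqa.1]) h3
        exfalso
        linarith [this.1]
      · rcases le_or_gt (q.2 - q2.2) h0 with h5 | h5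
        · have := h.up hX hqX hpq h3 h5
          exfalso
          linarith
        · have e4 := hmin q hqX hpq h5 (by linarith [hqa.2])
          have e5 : q' = q := eq_of_fst hX hq' hqX (by linarith [hqa.1, hqa.2])
            (by linarith [hqa.1, hqa.2]) (le_antisymm e4 e3)
          rw [← e5]
          exact kk_up_ge hs0)
  -- the windows between
  have i2 := int_ge (X := X) (p := p) (c := q2.2) (d := q'.2 - h0) (m := Z) hm.le (by
      intro a ha hb
      refine V_ge hX h.pmem ⟨by linarith, by linarith⟩ hZ2 fun q hq => ?_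
      obtain ⟨_, hqX, _, hqa, hpq, _, hno⟩ := hq
      have hA : 0 ≤ q'.2 - q.2 := by linarith [hqa.2]
      have hB : 0 ≤ q.2 - q2.2 := by linarith [hqa.1]
      have hqq2 := sep' hX h.mem hqX (by
        rintro rfl
        linarith [hqa.1])
      have hqq' := sep' hX hq' hqX (by
        rintro rfl
        linarith [hqa.2])
      have u1 : 1 ≤ ((q.1 - p.1) - x) ^ 2 + (q'.2 - q.2) ^ 2 := by
        have e : ((q.1 - p.1) - x) ^ 2 + (q'.2 - q.2) ^ 2 =
          (q.1 - q'.1) ^ 2 + (q.2 - q'.2) ^ 2 := by rw [hx]; ring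
        rw [e]
        exact hqq'
      have u2 : 1 ≤ ((q.1 - p.1) - Y) ^ 2 + (q.2 - q2.2) ^ 2 := by
        have e : ((q.1 - p.1) - Y) ^ 2 + (q.2 - q2.2) ^ 2 =
          (q.1 - q2.1) ^ 2 + (q.2 - q2.2) ^ 2 := by rw [hY]; ring
        rw [e]
        exact hqq2
      have hAB : (q'.2 - q.2) + (q.2 - q2.2) = s + v := by rw [hs, hv]; ring
      rcases le_or_gt q.2 p.2 with h3 | h3
      · have k := h.down hX hqX hpq (by linarith [hqa.1]) h3
        have := hZ (q.1 - p.1) _ _ hA hB hAB (by linarith [k.1]) (by linarith [k.1]) u1 u2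
        linarith [k.2]
      · have h4 := kk_up_nonneg (d := q.2 - p.2) (x := q.1 - p.1) (by linarith)
        rcases le_or_gt (q.2 - q2.2) h0 with h5 | h5
        · have k := h.up hX hqX hpq h3 h5
          have := hZ (q.1 - p.1) _ _ hA hB hAB (by linarith) (by linarith) u1 u2
          linarith
        · have e4 := hmin q hqX hpq h5 (by linarith [hqa.2])
          have k1 : x ≤ q.1 - p.1 := by rw [hx]; linarith
          have k2 : Y ≤ q.1 - p.1 := by
            refine far_lemma (s := s) (v := v) (y := q.2 - p.2) (x := x)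
              (by rw [← h0_eq]; linarith) (by rw [← h0_eq]; linarith) (by linarith)
              (by linarith [hqa.2]) (by linarith) hsq' k1 ?_ ?_ hv0 h.close
            · have e : s - (q.2 - p.2) = q'.2 - q.2 := by rw [hs]; ring
              rw [e]
              exact u1
            · have e : q.2 - p.2 + v = q.2 - q2.2 := by rw [hv]; ring
              rw [e]
              exact u2
          have := hZ (q.1 - p.1) _ _ hA hB hAB k1 k2 u1 u2
          linarith)
  have i3 := intervalIntegral.integral_add_adjacent_intervals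
    (V_intervalIntegrable X p q2.2 (q'.2 - h0)) (V_intervalIntegrable X p (q'.2 - h0) p.2)
  rw [← i3]
  unfold II at hZI
  rw [← h0_eq] at hZI
  have e1 : p.2 - (q'.2 - h0) = h0 - s := by rw [hs]; ring
  have e2 : q'.2 - h0 - q2.2 = s + v - h0 := by rw [hs, hv]; ring
  rw [e1] at i1
  rw [e2] at i2
  linarith

/-- The integral over the windows without `q2`. -/
theorem Low.key (hX : UnitSep X) (h : Low X p q2) :
    h0 - (h0 - (p.2 - q2.2)) * ((3 * (q2.1 - p.1) - 1 - (p.2 - q2.2) * √3 / 3) / 2) ≤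
      ∫ a in q2.2..p.2, V X p a := by
  classical
  rcases (X.filter fun q => p.1 < q.1 ∧ h0 < q.2 - q2.2 ∧ q.2 < p.2 + h0).eq_empty_or_nonempty
    with he | hne
  · refine h.keyA hX fun q hq h1 h2 h3 => ?_
    have : q ∈ X.filter fun q => p.1 < q.1 ∧ h0 < q.2 - q2.2 ∧ q.2 < p.2 + h0 :=
      Finset.mem_filter.2 ⟨hq, h1, h2, h3⟩
    rw [he] at this
    exact absurd this (Finset.notMem_empty _)
  · obtain ⟨q', hq', hmin⟩ := Finset.exists_min_image _ (fun r : Pt => r.1) hne
    obtain ⟨hq'X, h1, h2, h3⟩ := Finset.mem_filter.1 hq'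
    have hmin' : ∀ q ∈ X, p.1 < q.1 → h0 < q.2 - q2.2 → q.2 < p.2 + h0 → q'.1 ≤ q.1 :=
      fun q hq k1 k2 k3 => hmin q (Finset.mem_filter.2 ⟨hq, k1, k2, k3⟩)
    rcases lt_or_ge (q'.1 - p.1) ((q2.1 - p.1) + 1 / 2) with hc | hc
    · exact h.keyB hX hq'X h1 h2 h3 hmin' hc
    · refine h.keyA hX fun q hq k1 k2 k3 => ?_
      have := hmin' q hq k1 k2 k3
      linarith

theorem Low.vertex (hX : UnitSep X) (h : Low X p q2) {t : ℝ} (ht0 : 0 ≤ t) (ht : t ≤ h0) :
    t ≤ ∫ a in (p.2 - t)..p.2, V X p a := by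
  have hlo := h.lo
  have hhi := h.hi
  rcases le_total t (p.2 - q2.2) with h1 | h1
  · have := int_ge (X := X) (p := p) (c := p.2 - t) (d := p.2) (m := 1) (by linarith)
      (fun a ha hb => h.one hX (by linarith) hb)
    linarith
  · have i1 := int_ge (X := X) (p := p) (c := p.2 - t) (d := q2.2)
      (m := (3 * (q2.1 - p.1) - 1 - (p.2 - q2.2) * √3 / 3) / 2) (by linarith)
      (fun a ha hb => h.two hX (by linarith) hb)
    have i2 := h.key hX
    have i3 := intervalIntegral.integral_add_adjacent_intervals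
      (V_intervalIntegrable X p (p.2 - t) q2.2) (V_intervalIntegrable X p q2.2 p.2)
    rw [← i3]
    have hc := h.close
    have hlt : (3 * (q2.1 - p.1) - 1 - (p.2 - q2.2) * √3 / 3) / 2 ≤ 1 := by linarith
    have h4 : (h0 - t) * ((3 * (q2.1 - p.1) - 1 - (p.2 - q2.2) * √3 / 3) / 2) ≤ (h0 - t) * 1 :=
      mul_le_mul_of_nonneg_left hlt (by linarith)
    nlinarith

/-- The vertex inequality. -/
theorem vertex (hX : UnitSep X) (hp : p ∈ X) {t : ℝ} (ht0 : 0 ≤ t) (ht : t ≤ h0) :
    t ≤ ∫ a in (p.2 - t)..p.2, V X p a := by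
  classical
  have hr := r3_sq
  have hr0 := r3_pos
  have hA : (∀ a, p.2 - h0 < a → a < p.2 → 1 ≤ V X p a) → t ≤ ∫ a in (p.2 - t)..p.2, V X p a := by
    intro hall
    have := int_ge (X := X) (p := p) (c := p.2 - t) (d := p.2) (m := 1) (by linarith)
      (fun a ha hb => hall a (by linarith) hb)
    linarith
  rcases (X.filter fun q => p.2 - h0 < q.2 ∧ q.2 ≤ p.2 ∧ p.1 < q.1).eq_empty_or_nonempty
    with he | hne
  · refine hA fun a ha hb => V_ge hX hp ⟨hb.le, by linarith⟩ (by norm_num) fun q hq => ?_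
    obtain ⟨_, hqX, _, hqa, hpq, _, _⟩ := hq
    rcases le_or_gt q.2 p.2 with h3 | h3
    · have : q ∈ X.filter fun q => p.2 - h0 < q.2 ∧ q.2 ≤ p.2 ∧ p.1 < q.1 :=
        Finset.mem_filter.2 ⟨hqX, by linarith [hqa.1], h3, hpq⟩
      rw [he] at this
      exact absurd this (Finset.notMem_empty _)
    · exact up_one (by linarith) (by linarith [hqa.2]) (by linarith)
        (sep' hX hp hqX (by rintro rfl; exact lt_irrefl _ hpq))
  · obtain ⟨q2, hq2, hmin⟩ := Finset.exists_min_image _ (fun r : Pt => r.1) hne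
    obtain ⟨hq2X, h1, h2, h3⟩ := Finset.mem_filter.1 hq2
    have hmin' : ∀ r ∈ X, p.2 - h0 < r.2 → r.2 ≤ p.2 → p.1 < r.1 → q2.1 ≤ r.1 :=
      fun q hq k1 k2 k3 => hmin q (Finset.mem_filter.2 ⟨hq, k1, k2, k3⟩)
    rcases lt_or_ge (q2.1 - p.1) (1 + (p.2 - q2.2) * √3 / 9) with hc | hc
    · exact Low.vertex hX ⟨hp, hq2X, h1, h2, h3, hmin', hc⟩ ht0 ht
    · refine hA fun a ha hb => V_ge hX hp ⟨hb.le, by linarith⟩ (by norm_num) fun q hq => ?_
      obtain ⟨_, hqX, _, hqa, hpq, _, _⟩ := hq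
      rcases le_or_gt q.2 p.2 with h4 | h4
      · have hm := hmin' q hqX (by linarith [hqa.1]) h4 hpq
        by_cases e : q2 = q
        · rw [← e]
          have hv : 0 ≤ (p.2 - q2.2) * √3 := mul_nonneg (by linarith) hr0.le
          refine kk_down_ge (by linarith) (by linarith) ?_
          have e2 : -(q2.2 - p.2) = p.2 - q2.2 := by ring
          rw [e2]
          linarith
        · have hs := sep' hX hq2X hqX e
          have hle : (q.2 - q2.2) ^ 2 ≤ 3 / 4 := by
            rw [← h0_sq, ← sq_abs (q.2 - q2.2)]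
            refine pow_le_pow_left₀ (abs_nonneg _) ?_ 2
            rw [abs_le]
            constructor <;> linarith [hqa.1]
          have c1 : 1 / 2 ≤ q.1 - q2.1 := by
            refine le_of_sq_ge (by linarith) ?_
            norm_num
            linarith
          have c2 : (p.2 - q.2) * √3 ≤ 3 / 2 := by
            have k : (p.2 - q.2) * √3 ≤ (√3 / 2) * √3 :=
              mul_le_mul_of_nonneg_right (by rw [← h0_eq]; linarith [hqa.1]) hr0.le
            nlinarith
          have hv : 0 ≤ (p.2 - q2.2) * √3 := mul_nonneg (by linarith) hr0.le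
          refine kk_down_ge (by linarith) (by linarith) ?_
          have e2 : -(q.2 - p.2) = p.2 - q.2 := by ring
          rw [e2]
          linarith
      · exact up_one (by linarith) (by linarith [hqa.2]) (by linarith)
          (sep' hX hp hqX (by rintro rfl; exact lt_irrefl _ hpq))

end Pool.Agent.StripChord
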